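import Mathlib

/-!
# Planes of roots

An abstract version of a root system with a length function, and the theory of the (maximal)
dihedral reflection subgroup attached to a plane of roots.
-/

namespace Pool.Agent.Lib.MP_2f4918_al

/-- A group acting on a real vector space with a set of roots. -/
structure RootDatum (G V : Type*) [Group G] [AddCommGroup V] [Module ℝ V] where
  act : G →* Module.End ℝ V
  form : V →ₗ[ℝ] V →ₗ[ℝ] ℝ
  form_symm : ∀ v w, form v w = form w v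
  Φ : Set V
  form_self : ∀ β ∈ Φ, form β β = 1
  act_mem : ∀ g, ∀ β ∈ Φ, act g β ∈ Φ
  ht : V →ₗ[ℝ] ℝ
  ht_ne : ∀ β ∈ Φ, ht β ≠ 0
  refl : V → G
  act_refl : ∀ β ∈ Φ, ∀ v, act (refl β) v = v - (2 * form β v) • β
  refl_conj : ∀ g, ∀ β ∈ Φ, g * refl β * g⁻¹ = refl (act g β)
  refl_neg : ∀ β ∈ Φ, refl (-β) = refl β
  refl_mul_self : ∀ β ∈ Φ, refl β * refl β = 1
  finite_inv : ∀ g, {β | β ∈ Φ ∧ 0 < ht β ∧ ht (act g⁻¹ β) < 0}.Finite
  len : G → ℕ
  len_lt : ∀ g, ∀ β ∈ Φ, 0 < ht β → ht (act g⁻¹ β) < 0 → len (refl β * g) < len g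

namespace RootDatum

variable {G V : Type*} [Group G] [AddCommGroup V] [Module ℝ V] (R : RootDatum G V)

lemma act_mul (g h : G) (v : V) : R.act (g * h) v = R.act g (R.act h v) := by
  rw [map_mul]; rfl

lemma act_one (v : V) : R.act 1 v = v := by
  rw [map_one]; rfl

lemma act_inv_act (g : G) (v : V) : R.act g⁻¹ (R.act g v) = v := by
  rw [← act_mul, inv_mul_cancel, act_one]

lemma act_act_inv (g : G) (v : V) : R.act g (R.act g⁻¹ v) = v := by
  rw [← act_mul, mul_inv_cancel, act_one]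

lemma refl_inv {β : V} (hβ : β ∈ R.Φ) : (R.refl β)⁻¹ = R.refl β :=
  inv_eq_of_mul_eq_one_left (R.refl_mul_self β hβ)

lemma act_refl_self {β : V} (hβ : β ∈ R.Φ) : R.act (R.refl β) β = -β := by
  rw [R.act_refl β hβ, R.form_self β hβ]
  module

lemma neg_mem {β : V} (hβ : β ∈ R.Φ) : -β ∈ R.Φ := by
  rw [← R.act_refl_self hβ]; exact R.act_mem _ _ hβ

lemma refl_act {β : V} (hβ : β ∈ R.Φ) (g : G) :
    R.refl (R.act g β) = g * R.refl β * g⁻¹ := (R.refl_conj g β hβ).symm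

lemma refl_mul_refl_mul {β : V} (hβ : β ∈ R.Φ) (g : G) : R.refl β * (R.refl β * g) = g := by
  rw [← mul_assoc, R.refl_mul_self β hβ, one_mul]

/-- Action of the inverse of a reflected element. -/
lemma act_refl_mul_inv {β : V} (hβ : β ∈ R.Φ) (g : G) (v : V) :
    R.act (R.refl β * g)⁻¹ v = R.act g⁻¹ (R.act (R.refl β) v) := by
  rw [mul_inv_rev, R.refl_inv hβ, act_mul]

lemma len_lt_iff {β : V} (hβ : β ∈ R.Φ) (hpos : 0 < R.ht β) (g : G) :
    R.len (R.refl β * g) < R.len g ↔ R.ht (R.act g⁻¹ β) < 0 := by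
  constructor
  · intro h
    by_contra hcon
    have h1 : R.ht (R.act g⁻¹ β) ≠ 0 := R.ht_ne _ (R.act_mem _ _ hβ)
    have h2 : 0 < R.ht (R.act g⁻¹ β) := lt_of_le_of_ne (not_lt.mp hcon) h1.symm
    have h3 := R.len_lt (R.refl β * g) β hβ hpos (by
      rw [R.act_refl_mul_inv hβ, R.act_refl_self hβ, map_neg, map_neg]
      linarith)
    rw [R.refl_mul_refl_mul hβ] at h3
    omega
  · intro h
    exact R.len_lt g β hβ hpos h

lemma lt_len_iff {β : V} (hβ : β ∈ R.Φ) (hpos : 0 < R.ht β) (g : G) :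
    R.len g < R.len (R.refl β * g) ↔ 0 < R.ht (R.act g⁻¹ β) := by
  have h := R.len_lt_iff hβ hpos (R.refl β * g)
  rw [R.refl_mul_refl_mul hβ, R.act_refl_mul_inv hβ, R.act_refl_self hβ, map_neg, map_neg] at h
  rw [h]
  constructor <;> intro h <;> linarith

/-- A simple root: the only positive root made negative by its reflection is itself. -/
def IsSimple (e : V) : Prop :=
  e ∈ R.Φ ∧ 0 < R.ht e ∧ ∀ δ ∈ R.Φ, 0 < R.ht δ → R.ht (R.act (R.refl e) δ) < 0 → δ = e

/-- The basic property of covers. -/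
lemma simple_of_cover {e τ : V} (he : R.IsSimple e) (hτ : τ ∈ R.Φ) (hτp : 0 < R.ht τ) {z : G}
    (h1 : R.len (R.refl τ * z) = R.len z + 1) (h2 : R.len z < R.len (R.refl e * z))
    (h3 : R.len (R.refl e * (R.refl τ * z)) < R.len (R.refl τ * z)) : τ = e := by
  by_contra hne
  obtain ⟨he1, he2, he3⟩ := he
  have hz : 0 < R.ht (R.act z⁻¹ τ) := (R.lt_len_iff hτ hτp z).mp (by omega)
  have h4 : R.act (R.refl e) τ ∈ R.Φ := R.act_mem _ _ hτ
  have h5 : 0 < R.ht (R.act (R.refl e) τ) := by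
    rcases lt_trichotomy (R.ht (R.act (R.refl e) τ)) 0 with h | h | h
    · exact absurd (he3 τ hτ hτp h) hne
    · exact absurd h (R.ht_ne _ h4)
    · exact h
  have h6 := (R.lt_len_iff h4 h5 (R.refl e * z)).mpr (by
    rw [R.act_refl_mul_inv he1, ← R.act_mul (R.refl e) (R.refl e), R.refl_mul_self e he1,
      R.act_one]
    exact hz)
  rw [R.refl_act hτ, R.refl_inv he1] at h6
  have h7 : R.refl e * R.refl τ * R.refl e * (R.refl e * z) = R.refl e * (R.refl τ * z) := by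
    rw [mul_assoc (R.refl e * R.refl τ), R.refl_mul_refl_mul he1, mul_assoc]
  rw [h7] at h6
  omega

end RootDatum

end Pool.Agent.Lib.MP_2f4918_al
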