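import Mathlib

/-!
# Twisted involutions and the two quasiparabolic conditions
-/

namespace Pool.Agent.Lib.MP_2f4918_al

variable {B W : Type*} [Group W] {M : CoxeterMatrix B}

/-- `Aut(W, S)`: the group of automorphisms `θ` of `W` with `θ(S) = S`. -/
def AutWS (cs : CoxeterSystem M W) : Subgroup (MulAut W) where
  carrier := {θ | θ '' Set.range cs.simple = Set.range cs.simple}
  one_mem' := by
    change (fun x => x) '' Set.range cs.simple = Set.range cs.simple
    simp
  mul_mem' := by
    intro a b ha hb
    change (fun x => a (b x)) '' Set.range cs.simple = Set.range cs.simple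
    have h : (fun x => a (b x)) '' Set.range cs.simple = a '' (b '' Set.range cs.simple) := by
      rw [Set.image_image]
    rw [h, Set.mem_ofPred_eq.mp hb, Set.mem_ofPred_eq.mp ha]
  inv_mem' := by
    intro a ha
    change (fun x => a⁻¹ x) '' Set.range cs.simple = Set.range cs.simple
    have h : (fun x => a⁻¹ x) '' (a '' Set.range cs.simple) = Set.range cs.simple := by
      rw [Set.image_image]
      simp
    rwa [Set.mem_ofPred_eq.mp ha] at h

/-- The extended group `W⁺ = W ⋊ Aut(W, S)`, with product `(x, α) (y, β) = (x α(y), α β)`. -/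
abbrev WPlus (cs : CoxeterSystem M W) : Type _ := W ⋊[(AutWS cs).subtype] (AutWS cs)

/-- The inclusion `x ↦ (x, id)` of `W` in `W⁺`. -/
def incl (cs : CoxeterSystem M W) : W →* WPlus cs := SemidirectProduct.inl

/-- The extended length `ℓ(x, θ) = ℓ(x)`. -/
noncomputable def lenPlus (cs : CoxeterSystem M W) (w : WPlus cs) : ℕ := cs.length w.left

/-- `K` is a `W`-conjugacy class in `W⁺`. -/
def IsWClass (cs : CoxeterSystem M W) (K : Set (WPlus cs)) : Prop :=
  ∃ w : WPlus cs, K = {z | ∃ u : W, z = incl cs u * w * (incl cs u)⁻¹}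

/-- The first condition (QP1). -/
def QP1 (cs : CoxeterSystem M W) (K : Set (WPlus cs)) : Prop :=
  ∀ r : W, cs.IsReflection r → ∀ w ∈ K,
    lenPlus cs (incl cs r * w * incl cs r) = lenPlus cs w → incl cs r * w * incl cs r = w

/-- The second condition (QP2). -/
def QP2 (cs : CoxeterSystem M W) (K : Set (WPlus cs)) : Prop :=
  ∀ r : W, cs.IsReflection r → ∀ w ∈ K, ∀ i : B,
    lenPlus cs w < lenPlus cs (incl cs r * w * incl cs r) →
    lenPlus cs (incl cs (cs.simple i) * (incl cs r * w * incl cs r) * incl cs (cs.simple i)) <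
      lenPlus cs (incl cs (cs.simple i) * w * incl cs (cs.simple i)) →
    incl cs r * w * incl cs r = incl cs (cs.simple i) * w * incl cs (cs.simple i)

end Pool.Agent.Lib.MP_2f4918_al
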