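import Pool.Agent.Lib.MP_2f4918_al.Root
import Pool.Agent.Lib.MP_2f4918_al.Abs
import Pool.Agent.Lib.MP_2f4918_al.Defs

/-!
# The root datum of the extended Coxeter group
-/

namespace Pool.Agent.Lib.MP_2f4918_al

open Finsupp CoxeterSystem

variable {B W : Type*} [Group W] {M : CoxeterMatrix B} {cs : CoxeterSystem M W}

lemma exists_pm (θ : AutWS cs) (i : B) : ∃ j, cs.simple j = θ.1 (cs.simple i) := by
  have h : θ.1 (cs.simple i) ∈ θ.1 '' Set.range cs.simple := ⟨_, ⟨i, rfl⟩, rfl⟩
  rw [show θ.1 '' Set.range cs.simple = Set.range cs.simple from θ.2] at h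
  exact h

/-- The permutation of the index set given by an automorphism. -/
noncomputable def pm (θ : AutWS cs) (i : B) : B := Classical.choose (exists_pm θ i)

lemma pm_spec (θ : AutWS cs) (i : B) : cs.simple (pm θ i) = θ.1 (cs.simple i) :=
  Classical.choose_spec (exists_pm θ i)

lemma pm_one (i : B) : pm (1 : AutWS cs) i = i :=
  simple_inj (cs := cs) (by rw [pm_spec]; rfl)

lemma pm_mul (θ η : AutWS cs) (i : B) : pm (θ * η) i = pm θ (pm η i) :=
  simple_inj (cs := cs) (by rw [pm_spec, pm_spec, pm_spec]; rfl)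

lemma M_pm (θ : AutWS cs) (i j : B) : M (pm θ i) (pm θ j) = M i j := by
  rw [← orderOf_simple_mul (cs := cs), ← orderOf_simple_mul (cs := cs), pm_spec, pm_spec,
    ← map_mul]
  exact MulEquiv.orderOf_eq θ.1 _

lemma kk_pm (θ : AutWS cs) (i j : B) : kk M (pm θ i) (pm θ j) = kk M i j := by
  unfold kk; rw [M_pm]

/-- The linear action of an automorphism. -/
noncomputable def th (θ : AutWS cs) : Module.End ℝ (B →₀ ℝ) := Finsupp.lmapDomain ℝ ℝ (pm θ)

lemma th_ee (θ : AutWS cs) (i : B) : th θ (ee i) = ee (pm θ i) := by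
  simp [th, ee, Finsupp.mapDomain_single]

lemma lin_ext {N : Type*} [AddCommMonoid N] [Module ℝ N] {f g : (B →₀ ℝ) →ₗ[ℝ] N}
    (h : ∀ i, f (ee i) = g (ee i)) : f = g := by
  apply Finsupp.lhom_ext'
  intro i
  apply LinearMap.ext_ring
  exact h i

lemma th_one : th (1 : AutWS cs) = 1 := by
  apply lin_ext
  intro i
  rw [th_ee, pm_one]; rfl

lemma th_mul (θ η : AutWS cs) : th (θ * η) = th θ * th η := by
  apply lin_ext
  intro i
  rw [th_ee, pm_mul, Module.End.mul_apply, th_ee, th_ee]

lemma hgt_th (θ : AutWS cs) (v : B →₀ ℝ) : hgt (th θ v) = hgt v := by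
  have h : hgt ∘ₗ (th θ) = hgt := by
    apply lin_ext
    intro i
    rw [LinearMap.comp_apply, th_ee, hgt_ee, hgt_ee]
  exact LinearMap.congr_fun h v

lemma gform_th (θ : AutWS cs) (u v : B →₀ ℝ) : gform M (th θ u) (th θ v) = gform M u v := by
  have h : (gform M).compl₁₂ (th θ) (th θ) = gform M := by
    apply lin_ext
    intro i
    apply lin_ext
    intro j
    rw [LinearMap.compl₁₂_apply, th_ee, th_ee, gform_ee, gform_ee, kk_pm]
  exact LinearMap.congr_fun (LinearMap.congr_fun h u) v

lemma th_gr (θ : AutWS cs) (w : W) (v : B →₀ ℝ) :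
    th θ (gr cs w v) = gr cs (θ.1 w) (th θ v) := by
  induction w using cs.simple_induction_left generalizing v with
  | one => rw [map_one θ.1, gr_one, gr_one]
  | mul_simple_left w i ih =>
    rw [map_mul θ.1, gr_mul, gr_mul, ← ih, ← pm_spec, gr_simple, gr_simple, sig_apply, sig_apply,
      map_sub, map_smul, th_ee, ← th_ee, gform_th]

/-- The action of the extended group. -/
noncomputable def actPlus : WPlus cs →* Module.End ℝ (B →₀ ℝ) where
  toFun g := gr cs g.left * th g.right
  map_one' := by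
    rw [SemidirectProduct.one_left, SemidirectProduct.one_right, map_one, th_one, one_mul]
  map_mul' := by
    intro g h
    apply LinearMap.ext
    intro v
    rw [SemidirectProduct.mul_left, SemidirectProduct.mul_right, th_mul]
    simp only [Module.End.mul_apply]
    rw [gr_mul, th_gr]
    rfl

lemma actPlus_apply (g : WPlus cs) (v : B →₀ ℝ) :
    actPlus g v = gr cs g.left (th g.right v) := rfl

lemma actPlus_incl (w : W) (v : B →₀ ℝ) : actPlus (incl cs w) v = gr cs w v := by
  rw [actPlus_apply]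
  have h1 : (incl cs w).right = 1 := rfl
  have h2 : (incl cs w).left = w := rfl
  rw [h1, h2, th_one]; rfl

lemma gform_actPlus (g : WPlus cs) (u v : B →₀ ℝ) :
    gform M (actPlus g u) (actPlus g v) = gform M u v := by
  rw [actPlus_apply, actPlus_apply, gform_gr, gform_th]

lemma actPlus_mem_roots (g : WPlus cs) {β : B →₀ ℝ} (hβ : β ∈ roots cs) :
    actPlus g β ∈ roots cs := by
  rw [actPlus_apply]
  apply gr_mem_roots
  obtain ⟨w, i, rfl⟩ := hβ
  rw [th_gr, th_ee]
  exact ⟨_, _, rfl⟩

/-- A group element acting as the reflection in a root. -/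
lemma exists_rf {β : B →₀ ℝ} (hβ : β ∈ roots cs) :
    ∃ t : W, cs.IsReflection t ∧ ∀ v, gr cs t v = v - (2 * gform M β v) • β := by
  obtain ⟨w, i, rfl⟩ := hβ
  refine ⟨w * cs.simple i * w⁻¹, ⟨w, i, rfl⟩, fun v => ?_⟩
  have h1 : gform M (ee i) (gr cs w⁻¹ v) = gform M (gr cs w (ee i)) v := by
    rw [← gform_gr cs w (ee i), gr_gr_inv]
  rw [gr_mul, gr_mul, gr_simple, sig_apply, map_sub, map_smul, gr_gr_inv, h1]

open Classical in
/-- The reflection in a root. -/
noncomputable def rf (cs : CoxeterSystem M W) (β : B →₀ ℝ) : W :=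
  if h : β ∈ roots cs then Classical.choose (exists_rf h) else 1

lemma rf_isReflection {β : B →₀ ℝ} (hβ : β ∈ roots cs) : cs.IsReflection (rf cs β) := by
  unfold rf
  rw [dif_pos hβ]
  exact (Classical.choose_spec (exists_rf hβ)).1

lemma gr_rf {β : B →₀ ℝ} (hβ : β ∈ roots cs) (v : B →₀ ℝ) :
    gr cs (rf cs β) v = v - (2 * gform M β v) • β := by
  unfold rf
  rw [dif_pos hβ]
  exact (Classical.choose_spec (exists_rf hβ)).2 v

lemma eq_rf {t : W} {β : B →₀ ℝ} (hβ : β ∈ roots cs)
    (h : ∀ v, gr cs t v = v - (2 * gform M β v) • β) : t = rf cs β := by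
  apply gr_inj (cs := cs)
  apply LinearMap.ext
  intro v
  rw [h, gr_rf hβ]

lemma rf_ee (i : B) : rf cs (ee i) = cs.simple i :=
  (eq_rf (ee_mem_roots i) (fun v => by rw [gr_simple, sig_apply])).symm

lemma rf_gr (w : W) (i : B) : rf cs (gr cs w (ee i)) = w * cs.simple i * w⁻¹ := by
  symm
  apply eq_rf ⟨w, i, rfl⟩
  intro v
  have h1 : gform M (ee i) (gr cs w⁻¹ v) = gform M (gr cs w (ee i)) v := by
    rw [← gform_gr cs w (ee i), gr_gr_inv]
  rw [gr_mul, gr_mul, gr_simple, sig_apply, map_sub, map_smul, gr_gr_inv, h1]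

lemma neg_mem_roots {β : B →₀ ℝ} (hβ : β ∈ roots cs) : -β ∈ roots cs := by
  obtain ⟨w, i, rfl⟩ := hβ
  exact ⟨w * cs.simple i, i, by rw [gr_mul, gr_simple_ee, map_neg]⟩

lemma rf_neg {β : B →₀ ℝ} (hβ : β ∈ roots cs) : rf cs (-β) = rf cs β := by
  apply eq_rf hβ
  intro v
  rw [gr_rf (neg_mem_roots hβ), map_neg, LinearMap.neg_apply]
  module

lemma conj_incl (g : WPlus cs) (w : W) :
    g * incl cs w * g⁻¹ = incl cs (g.left * g.right.1 w * g.left⁻¹) := by
  rw [mul_inv_eq_iff_eq_mul]
  apply SemidirectProduct.ext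
  · simp only [incl, SemidirectProduct.mul_left, SemidirectProduct.left_inl,
      SemidirectProduct.right_inl, map_one, MulAut.one_apply]
    group
    rfl
  · simp only [incl, SemidirectProduct.mul_right, SemidirectProduct.right_inl, mul_one, one_mul]

lemma conj_rf (g : WPlus cs) {β : B →₀ ℝ} (hβ : β ∈ roots cs) :
    g * incl cs (rf cs β) * g⁻¹ = incl cs (rf cs (actPlus g β)) := by
  rw [conj_incl]
  congr 1
  apply eq_rf (actPlus_mem_roots g hβ)
  intro v
  rw [← actPlus_incl, ← conj_incl, map_mul, map_mul, Module.End.mul_apply, Module.End.mul_apply,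
    actPlus_incl, gr_rf hβ]
  have h1 : ∀ v, actPlus g (actPlus g⁻¹ v) = v := by
    intro v
    rw [← Module.End.mul_apply, ← map_mul, mul_inv_cancel, map_one]; rfl
  rw [map_sub, map_smul, h1, ← gform_actPlus g β, h1]

/-- The exchange property for words. -/
lemma exchange_word (ω : List B) : ∀ β ∈ roots cs, 0 < hgt β →
    hgt (gr cs (cs.wordProd ω)⁻¹ β) < 0 →
    ∃ ω' : List B, ω'.length + 1 = ω.length ∧ rf cs β * cs.wordProd ω = cs.wordProd ω' := by
  induction ω with
  | nil =>
    intro β hβ hpos hneg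
    rw [wordProd_nil, inv_one, gr_one] at hneg
    linarith
  | cons i ω ih =>
    intro β hβ hpos hneg
    by_cases hβi : β = ee i
    · subst hβi
      exact ⟨ω, rfl, by rw [rf_ee, wordProd_cons, cs.simple_mul_simple_cancel_left]⟩
    · have h1 : gr cs (cs.simple i) β ∈ roots cs := gr_mem_roots hβ _
      have h2 : 0 < hgt (gr cs (cs.simple i) β) := by
        rcases lt_trichotomy (hgt (gr cs (cs.simple i) β)) 0 with h | h | h
        · exact absurd (eq_ee_of_neg hβ hpos h) hβi
        · exact absurd h (hgt_ne_zero h1)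
        · exact h
      rw [wordProd_cons, mul_inv_rev, cs.inv_simple, gr_mul] at hneg
      obtain ⟨ω', hlen, h3⟩ := ih _ h1 h2 hneg
      refine ⟨i :: ω', by simp [hlen], ?_⟩
      have h4 : rf cs (gr cs (cs.simple i) β) = cs.simple i * rf cs β * cs.simple i := by
        obtain ⟨w, j, rfl⟩ := hβ
        rw [← gr_mul, rf_gr, rf_gr, mul_inv_rev, cs.inv_simple]
        group
      rw [wordProd_cons, wordProd_cons, ← h3, h4]
      rw [← mul_assoc (cs.simple i), ← mul_assoc (cs.simple i), ← mul_assoc (cs.simple i),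
        cs.simple_mul_simple_self, one_mul, mul_assoc]

lemma length_rf_mul_lt {β : B →₀ ℝ} (hβ : β ∈ roots cs) (hpos : 0 < hgt β) {x : W}
    (hneg : hgt (gr cs x⁻¹ β) < 0) : cs.length (rf cs β * x) < cs.length x := by
  obtain ⟨ω, hω, rfl⟩ := cs.exists_isReduced x
  obtain ⟨ω', hlen, h1⟩ := exchange_word ω β hβ hpos hneg
  have h2 := cs.length_wordProd_le ω'
  rw [h1, hω.eq]
  omega

lemma finite_inversions (x : W) :
    {β | β ∈ roots cs ∧ 0 < hgt β ∧ hgt (gr cs x⁻¹ β) < 0}.Finite := by
  induction x using cs.simple_induction_left with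
  | one =>
    convert Set.finite_empty
    rw [Set.eq_empty_iff_forall_notMem]
    rintro β ⟨_, h1, h2⟩
    rw [inv_one, gr_one] at h2
    linarith
  | mul_simple_left w i ih =>
    apply ((ih.image (gr cs (cs.simple i))).union (Set.finite_singleton (ee i))).subset
    rintro β ⟨hβ, hpos, hneg⟩
    by_cases hβi : β = ee i
    · right; exact hβi
    · left
      rw [mul_inv_rev, cs.inv_simple, gr_mul] at hneg
      refine ⟨gr cs (cs.simple i) β, ⟨gr_mem_roots hβ _, ?_, hneg⟩, ?_⟩
      · rcases lt_trichotomy (hgt (gr cs (cs.simple i) β)) 0 with h | h | h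
        · exact absurd (eq_ee_of_neg hβ hpos h) hβi
        · exact absurd h (hgt_ne_zero (gr_mem_roots hβ _))
        · exact h
      · rw [← gr_mul, cs.simple_mul_simple_self, gr_one]

lemma hgt_act_inv (g : WPlus cs) (v : B →₀ ℝ) :
    hgt (actPlus g⁻¹ v) = hgt (gr cs g.left⁻¹ v) := by
  have h1 : actPlus g⁻¹ v = th g.right⁻¹ (gr cs g.left⁻¹ v) := by
    rw [th_gr, actPlus_apply, SemidirectProduct.inv_left, SemidirectProduct.inv_right]
    rfl
  rw [h1, hgt_th]

/-- The root datum of the extended Coxeter group. -/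
noncomputable def datum (cs : CoxeterSystem M W) : RootDatum (WPlus cs) (B →₀ ℝ) where
  act := actPlus
  form := gform M
  form_symm := gform_symm M
  Φ := roots cs
  form_self := fun _ hβ => gform_self_root hβ
  act_mem := fun g _ hβ => actPlus_mem_roots g hβ
  ht := hgt
  ht_ne := fun _ hβ => hgt_ne_zero hβ
  refl := fun β => incl cs (rf cs β)
  act_refl := fun β hβ v => by rw [actPlus_incl, gr_rf hβ]
  refl_conj := fun g _ hβ => conj_rf g hβ
  refl_neg := fun _ hβ => by rw [rf_neg hβ]
  refl_mul_self := fun _ hβ => by rw [← map_mul, (rf_isReflection hβ).mul_self, map_one]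
  finite_inv := fun g => by
    simp only [hgt_act_inv]
    exact finite_inversions g.left
  len := lenPlus cs
  len_lt := fun g β hβ hpos hneg => by
    rw [hgt_act_inv] at hneg
    have h1 := length_rf_mul_lt hβ hpos hneg
    have h2 : (incl cs (rf cs β) * g).left = rf cs β * g.left := by
      rw [SemidirectProduct.mul_left]
      rfl
    unfold lenPlus
    rw [h2]
    exact h1

lemma isSimple_ee (i : B) : (datum cs).IsSimple (ee i) := by
  refine ⟨ee_mem_roots i, ?_, ?_⟩
  · change 0 < hgt (ee i)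
    rw [hgt_ee]; norm_num
  · intro δ hδ hpos hneg
    change hgt (actPlus (incl cs (rf cs (ee i))) δ) < 0 at hneg
    rw [actPlus_incl, rf_ee] at hneg
    exact eq_ee_of_neg hδ hpos hneg

lemma refl_ee (i : B) : (datum cs).refl (ee i) = incl cs (cs.simple i) := by
  change incl cs (rf cs (ee i)) = _
  rw [rf_ee]

end Pool.Agent.Lib.MP_2f4918_al
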