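import Mathlib

/-!
# The geometric representation of a Coxeter group
-/

namespace Pool.Agent.Lib.MP_2f4918_al

open Finsupp

section Chebyshev

/-- Chebyshev polynomials of the second kind, shifted. -/
noncomputable def qq (c : ℝ) : ℕ → ℝ
  | 0 => 0
  | 1 => 1
  | n + 2 => 2 * c * qq c (n + 1) - qq c n

lemma qq_zero (c : ℝ) : qq c 0 = 0 := rfl

lemma qq_one (c : ℝ) : qq c 1 = 1 := rfl

lemma qq_succ_succ (c : ℝ) (n : ℕ) : qq c (n + 2) = 2 * c * qq c (n + 1) - qq c n := rfl

lemma qq_invariant (c : ℝ) (n : ℕ) :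
    qq c n ^ 2 + qq c (n + 1) ^ 2 - 2 * c * qq c n * qq c (n + 1) = 1 := by
  induction n with
  | zero => simp [qq_zero, qq_one]
  | succ n ih =>
    rw [qq_succ_succ]
    linear_combination ih

lemma qq_sin (θ : ℝ) (n : ℕ) : Real.sin θ * qq (Real.cos θ) n = Real.sin (n * θ) ∧
    Real.sin θ * qq (Real.cos θ) (n + 1) = Real.sin ((n + 1 : ℕ) * θ) := by
  induction n with
  | zero => simp [qq_zero, qq_one]
  | succ n ih =>
    refine ⟨ih.2, ?_⟩
    rw [qq_succ_succ, mul_sub]
    have h1 : Real.sin θ * (2 * Real.cos θ * qq (Real.cos θ) (n + 1)) =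
        2 * Real.cos θ * (Real.sin θ * qq (Real.cos θ) (n + 1)) := by ring
    rw [h1, ih.1, ih.2]
    have h2 : Real.sin (((n + 1 + 1 : ℕ) : ℝ) * θ) =
        Real.sin (((n + 1 : ℕ) : ℝ) * θ + θ) := by
      congr 1; push_cast; ring
    have h3 : Real.sin ((n : ℝ) * θ) = Real.sin (((n + 1 : ℕ) : ℝ) * θ - θ) := by
      congr 1; push_cast; ring
    rw [h2, h3, Real.sin_add, Real.sin_sub]
    ring

lemma qq_one_eq (n : ℕ) : qq 1 n = n ∧ qq 1 (n + 1) = n + 1 := by
  induction n with
  | zero => simp [qq_zero, qq_one]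
  | succ n ih =>
    refine ⟨by rw [ih.2]; push_cast; ring, ?_⟩
    rw [qq_succ_succ, ih.1, ih.2]; push_cast; ring

lemma sin_pi_div_pos {m : ℕ} (hm : 2 ≤ m) : 0 < Real.sin (Real.pi / m) := by
  have hm' : (2 : ℝ) ≤ m := by exact_mod_cast hm
  apply Real.sin_pos_of_pos_of_lt_pi
  · exact div_pos Real.pi_pos (by linarith)
  · exact div_lt_self Real.pi_pos (by linarith)

lemma qq_nonneg {m : ℕ} (hm1 : m ≠ 1) {n : ℕ} (hn : m = 0 ∨ n ≤ m) :
    0 ≤ qq (Real.cos (Real.pi / m)) n := by
  rcases Nat.eq_zero_or_pos m with h0 | h0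
  · subst h0
    simp only [Nat.cast_zero, div_zero, Real.cos_zero]
    rw [(qq_one_eq n).1]
    positivity
  · have hm : 2 ≤ m := by omega
    have hn' : n ≤ m := by omega
    have h1 := sin_pi_div_pos hm
    have h2 := (qq_sin (Real.pi / m) n).1
    have h3 : 0 ≤ Real.sin (n * (Real.pi / m)) := by
      apply Real.sin_nonneg_of_nonneg_of_le_pi
      · positivity
      · have hm' : (0 : ℝ) < m := by exact_mod_cast h0
        have hn'' : (n : ℝ) ≤ m := by exact_mod_cast hn'
        calc (n : ℝ) * (Real.pi / m) ≤ m * (Real.pi / m) := by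
              apply mul_le_mul_of_nonneg_right hn''
              positivity
          _ = Real.pi := by field_simp
    by_contra hcon
    push Not at hcon
    have := mul_neg_of_pos_of_neg h1 hcon
    linarith

lemma qq_self {m : ℕ} (hm1 : m ≠ 1) : qq (Real.cos (Real.pi / m)) m = 0 := by
  rcases Nat.eq_zero_or_pos m with h0 | h0
  · subst h0; rfl
  · have hm : 2 ≤ m := by omega
    have h1 := sin_pi_div_pos hm
    have h2 := (qq_sin (Real.pi / m) m).1
    have hm' : (m : ℝ) ≠ 0 := by exact_mod_cast h0.ne'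
    rw [mul_div_cancel₀ _ hm', Real.sin_pi] at h2
    rcases mul_eq_zero.mp h2 with h3 | h3
    · exact absurd h3 h1.ne'
    · exact h3

/-- The zeros of `qq`. -/
lemma dvd_of_qq_eq_zero {m n : ℕ} (hm1 : m ≠ 1) (h : qq (Real.cos (Real.pi / m)) n = 0) :
    m ∣ n := by
  rcases Nat.eq_zero_or_pos m with h0 | h0
  · subst h0
    simp only [Nat.cast_zero, div_zero, Real.cos_zero] at h
    rw [(qq_one_eq n).1] at h
    have : n = 0 := by exact_mod_cast h
    rw [this]
  · have h2 := (qq_sin (Real.pi / m) n).1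
    rw [h, mul_zero] at h2
    obtain ⟨k, hk⟩ := Real.sin_eq_zero_iff.mp h2.symm
    have hm' : (m : ℝ) ≠ 0 := by exact_mod_cast h0.ne'
    have h3 : (n : ℝ) = k * m := by
      field_simp at hk
      linarith
    have h4 : (n : ℤ) = k * m := by exact_mod_cast h3
    have h5 : (m : ℤ) ∣ n := ⟨k, by rw [h4]; ring⟩
    exact_mod_cast h5

end Chebyshev

variable {B : Type*} (M : CoxeterMatrix B)

/-- The coefficients of the form. -/
noncomputable def kk (i j : B) : ℝ := -Real.cos (Real.pi / M i j)

lemma kk_self (i : B) : kk M i i = 1 := by simp [kk]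

lemma kk_symm (i j : B) : kk M i j = kk M j i := by simp [kk, M.symmetric i j]

/-- The invariant form. -/
noncomputable def gform : (B →₀ ℝ) →ₗ[ℝ] (B →₀ ℝ) →ₗ[ℝ] ℝ :=
  Finsupp.linearCombination ℝ (fun i => Finsupp.linearCombination ℝ (fun j => kk M i j))

/-- Basis vectors. -/
noncomputable def ee (i : B) : B →₀ ℝ := Finsupp.single i 1

lemma gform_ee (i j : B) : gform M (ee i) (ee j) = kk M i j := by
  simp [gform, ee]

lemma gform_symm (v w : B →₀ ℝ) : gform M v w = gform M w v := by
  have h : gform M = (gform M).flip := by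
    apply Finsupp.lhom_ext'
    intro i
    apply LinearMap.ext_ring
    apply Finsupp.lhom_ext'
    intro j
    apply LinearMap.ext_ring
    simp only [LinearMap.comp_apply, Finsupp.lsingle_apply, LinearMap.flip_apply]
    have h1 := gform_ee M i j
    have h2 := gform_ee M j i
    unfold ee at h1 h2
    rw [h1, h2, kk_symm]
  conv_lhs => rw [h]
  rfl

/-- The simple reflections of the geometric representation. -/
noncomputable def sig (i : B) : Module.End ℝ (B →₀ ℝ) :=
  LinearMap.id - (2 : ℝ) • (gform M (ee i)).smulRight (ee i)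

lemma sig_apply (i : B) (v : B →₀ ℝ) : sig M i v = v - (2 * gform M (ee i) v) • ee i := by
  simp [sig, smul_smul]

lemma sig_sig (i : B) (v : B →₀ ℝ) : sig M i (sig M i v) = v := by
  simp only [sig_apply, map_sub, map_smul, smul_eq_mul, gform_ee, kk_self]
  module

/-- Explicit powers of the product of two simple reflections. -/
lemma sig_mul_pow (i j : B) (n : ℕ) (v : B →₀ ℝ) {c : ℝ} (hc : kk M i j = -c) :
    ((sig M i * sig M j) ^ n) v = v
      - (2 * qq c n * (gform M (ee j) v * qq c (n + 1) + gform M (ee i) v * qq c n)) • ee i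
      - (2 * qq c n * (gform M (ee j) v * qq c n
          + gform M (ee i) v * (2 * c * qq c n - qq c (n + 1)))) • ee j := by
  induction n with
  | zero => simp [qq_zero]
  | succ n ih =>
    rw [pow_succ', Module.End.mul_apply, ih, Module.End.mul_apply]
    have hc' : kk M j i = -c := by rw [kk_symm, hc]
    have hinv := qq_invariant c n
    set p := qq c n
    set r := qq c (n + 1)
    have hq : qq c (n + 1 + 1) = 2 * c * r - p := rfl
    set α := gform M (ee i) v
    set β := gform M (ee j) v
    rw [hq]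
    simp only [sig_apply, map_sub, map_smul, smul_eq_mul, gform_ee, kk_self, hc, hc']
    have e1 : 2 * r * (β * (2 * c * r - p) + α * r) = 2 * p * (β * r + α * p)
        + 2 * (α - 2 * p * (β * r + α * p) * 1 - 2 * p * (β * p + α * (2 * c * p - r)) * (-c)
        - 2 * (β - 2 * p * (β * r + α * p) * (-c) - 2 * p * (β * p + α * (2 * c * p - r)) * 1)
          * (-c)) := by
      linear_combination (2 * α + 4 * c * β) * hinv
    have e2 : 2 * r * (β * r + α * (2 * c * r - (2 * c * r - p))) =
        2 * p * (β * p + α * (2 * c * p - r)) +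
        2 * (β - 2 * p * (β * r + α * p) * (-c) - 2 * p * (β * p + α * (2 * c * p - r)) * 1) := by
      linear_combination (2 * β) * hinv
    rw [e1, e2]
    module

lemma liftable : M.IsLiftable (sig M) := by
  intro i j
  by_cases hij : i = j
  · subst hij
    rw [M.diagonal, pow_one]
    ext1 v
    apply LinearMap.ext
    intro x
    simp only [LinearMap.comp_apply, Module.End.mul_apply, sig_sig]
    rfl
  · have hm := M.off_diagonal i j hij
    apply LinearMap.ext
    intro v
    rw [sig_mul_pow M i j (M i j) v (c := Real.cos (Real.pi / M i j)) rfl, qq_self hm]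
    simp

end Pool.Agent.Lib.MP_2f4918_al
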