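import Pool.Agent.Lib.MP_2f4918_al.Plane

/-!
# Levels in a coset of the dihedral group of a plane
-/

namespace Pool.Agent.Lib.MP_2f4918_al

namespace RootDatum

variable {G V : Type*} [Group G] [AddCommGroup V] [Module ℝ V] {R : RootDatum G V}
  {P : Submodule ℝ V} {a b : V}

lemma Dih.lpos (h : Dih R P a b) {c : V} (hc : c = a ∨ c = b) : c ∈ R.pos P := by
  rcases hc with rfl | rfl
  · exact h.ha
  · exact h.hb

lemma Dih.lsimple (h : Dih R P a b) {c : V} (hc : c = a ∨ c = b) {δ : V} (hδ : δ ∈ R.pos P)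
    (hneg : R.ht (R.act (R.refl c) δ) < 0) : δ = c := by
  rcases hc with rfl | rfl
  · exact h.sa δ hδ hneg
  · exact h.sb δ hδ hneg

/-- A letter reflection permutes the other positive roots. -/
lemma Dih.lperm (h : Dih R P a b) {c : V} (hc : c = a ∨ c = b) {δ : V} (hδ : δ ∈ R.pos P)
    (hne : δ ≠ c) : R.act (R.refl c) δ ∈ R.pos P := by
  apply pos_of_ht_pos (h.lpos hc) hδ
  rcases lt_trichotomy (R.ht (R.act (R.refl c) δ)) 0 with h2 | h2 | h2
  · exact absurd (h.lsimple hc hδ h2) hne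
  · exact absurd h2 (R.ht_ne _ (R.act_mem _ _ hδ.1))
  · exact h2

lemma mem_inv_refl_mul {c : V} (hc : c ∈ R.pos P) (z : G) :
    c ∈ R.inv P (R.refl c * z) ↔ c ∉ R.inv P z := by
  have h0 : R.ht (R.act z⁻¹ c) ≠ 0 := R.ht_ne _ (R.act_mem _ _ hc.1)
  constructor
  · intro h1 h2
    have h3 := h1.2
    have h4 := h2.2
    rw [R.act_refl_mul_inv hc.1, R.act_refl_self hc.1, map_neg, map_neg] at h3
    linarith
  · intro h1
    refine ⟨hc, ?_⟩
    rw [R.act_refl_mul_inv hc.1, R.act_refl_self hc.1, map_neg, map_neg]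
    have h2 : ¬ (R.ht (R.act z⁻¹ c) < 0) := fun h3 => h1 ⟨hc, h3⟩
    have h3 : 0 < R.ht (R.act z⁻¹ c) := lt_of_le_of_ne (not_lt.mp h2) h0.symm
    linarith

/-- Other inversions of `refl c * z`. -/
lemma Dih.mem_inv_mul (h : Dih R P a b) {c : V} (hc : c = a ∨ c = b) {δ : V}
    (hne : δ ≠ c) (hδ : δ ∈ R.pos P) (z : G) :
    δ ∈ R.inv P (R.refl c * z) ↔ R.act (R.refl c) δ ∈ R.inv P z := by
  have hcp := h.lpos hc
  have h1 := h.lperm hc hδ hne
  constructor
  · intro h2
    refine ⟨h1, ?_⟩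
    have h3 := h2.2
    rwa [R.act_refl_mul_inv hcp.1] at h3
  · intro h2
    refine ⟨hδ, ?_⟩
    rw [R.act_refl_mul_inv hcp.1]
    exact h2.2

lemma Dih.lev_descent (h : Dih R P a b) {c : V} (hc : c = a ∨ c = b) {z : G}
    (hz : c ∈ R.inv P z) : R.lev P (R.refl c * z) + 1 = R.lev P z := by
  have hcp := h.lpos hc
  have hinj : Function.Injective (R.act (R.refl c)) := by
    intro v w hvw
    have := congrArg (R.act (R.refl c)) hvw
    rwa [← R.act_mul, ← R.act_mul, R.refl_mul_self c hcp.1, R.act_one, R.act_one] at this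
  have himg : R.inv P (R.refl c * z) = R.act (R.refl c) '' (R.inv P z \ {c}) := by
    ext δ
    constructor
    · intro hδ
      have hne : δ ≠ c := by
        rintro rfl
        exact ((mem_inv_refl_mul hcp z).mp hδ) hz
      have h1 := (h.mem_inv_mul hc hne hδ.1 z).mp hδ
      refine ⟨R.act (R.refl c) δ, ⟨h1, ?_⟩, ?_⟩
      · intro h2
        have h3 : R.act (R.refl c) δ = c := h2
        have h4 := congrArg (R.act (R.refl c)) h3
        rw [← R.act_mul, R.refl_mul_self c hcp.1, R.act_one, R.act_refl_self hcp.1] at h4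
        have h5 := hδ.1.2.2
        rw [h4, map_neg] at h5
        have := hcp.2.2
        linarith
      · rw [← R.act_mul, R.refl_mul_self c hcp.1, R.act_one]
    · rintro ⟨ε, ⟨hε, hεc⟩, rfl⟩
      have hεc' : ε ≠ c := hεc
      have h1 := h.lperm hc hε.1 hεc'
      refine ⟨h1, ?_⟩
      rw [R.act_refl_mul_inv hcp.1, ← R.act_mul (R.refl c) (R.refl c), R.refl_mul_self c hcp.1,
        R.act_one]
      exact hε.2
  unfold lev
  rw [himg, Set.ncard_image_of_injective _ hinj]
  exact Set.ncard_sdiff_singleton_add_one hz (inv_finite z)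

lemma Dih.lev_ascent (h : Dih R P a b) {c : V} (hc : c = a ∨ c = b) {z : G}
    (hz : c ∉ R.inv P z) : R.lev P (R.refl c * z) = R.lev P z + 1 := by
  have hcp := h.lpos hc
  have h1 := h.lev_descent hc ((mem_inv_refl_mul hcp z).mpr hz)
  rw [R.refl_mul_refl_mul hcp.1] at h1
  exact h1.symm

lemma lev_eq_zero {z : G} : R.lev P z = 0 ↔ R.inv P z = ∅ := by
  unfold lev
  exact Set.ncard_eq_zero (inv_finite z)

lemma Dih.exists_descent (h : Dih R P a b) {z : G} (hz : 0 < R.lev P z) :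
    ∃ c, (c = a ∨ c = b) ∧ c ∈ R.inv P z := by
  have h1 : (R.inv P z).Nonempty := by
    rw [Set.nonempty_iff_ne_empty]
    intro h2
    rw [lev_eq_zero.mpr h2] at hz
    exact lt_irrefl _ hz
  rcases h.desc z h1 with h2 | h2
  · exact ⟨a, Or.inl rfl, h2⟩
  · exact ⟨b, Or.inr rfl, h2⟩

/-- Product of the reflections of a list. -/
def prd (R : RootDatum G V) (l : List V) : G := (l.map R.refl).prod

lemma prd_nil : R.prd [] = 1 := rfl

lemma prd_cons (c : V) (l : List V) : R.prd (c :: l) = R.refl c * R.prd l := by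
  simp [prd]

lemma prd_append (l l' : List V) : R.prd (l ++ l') = R.prd l * R.prd l' := by
  simp [prd]

/-- Words in the two letters. -/
def IsWord (a b : V) (l : List V) : Prop := ∀ c ∈ l, c = a ∨ c = b

omit [AddCommGroup V] [Module ℝ V] in
lemma IsWord.tail {c : V} {l : List V} (h : IsWord a b (c :: l)) : IsWord a b l :=
  fun d hd => h d (List.mem_cons_of_mem _ hd)

omit [AddCommGroup V] [Module ℝ V] in
lemma IsWord.head {c : V} {l : List V} (h : IsWord a b (c :: l)) : c = a ∨ c = b :=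
  h c List.mem_cons_self

omit [AddCommGroup V] [Module ℝ V] in
lemma IsWord.cons {c : V} {l : List V} (hc : c = a ∨ c = b) (h : IsWord a b l) :
    IsWord a b (c :: l) := by
  intro d hd
  rcases List.mem_cons.mp hd with rfl | hd
  · exact hc
  · exact h d hd

/-- The exchange property. -/
lemma Dih.exchange (h : Dih R P a b) {x₀ : G} (hx₀ : R.inv P x₀ = ∅) :
    ∀ l : List V, IsWord a b l → ∀ δ ∈ R.inv P (R.prd l * x₀),
      ∃ l', IsWord a b l' ∧ l'.length + 1 = l.length ∧
        R.refl δ * (R.prd l * x₀) = R.prd l' * x₀ := by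
  intro l
  induction l with
  | nil =>
    intro _ δ hδ
    rw [prd_nil, one_mul, hx₀] at hδ
    exact absurd hδ (Set.notMem_empty δ)
  | cons c l ih =>
    intro hl δ hδ
    have hc := hl.head
    have hcp := h.lpos hc
    by_cases hδc : δ = c
    · subst hδc
      refine ⟨l, hl.tail, rfl, ?_⟩
      rw [prd_cons, mul_assoc, R.refl_mul_refl_mul hcp.1]
    · rw [prd_cons, mul_assoc] at hδ
      have h1 := (h.mem_inv_mul hc hδc hδ.1 _).mp hδ
      obtain ⟨l', hl', hlen, heq⟩ := ih hl.tail _ h1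
      refine ⟨c :: l', hl'.cons hc, by simp [hlen], ?_⟩
      rw [R.refl_act hδ.1.1, R.refl_inv hcp.1] at heq
      rw [prd_cons, prd_cons, mul_assoc (R.refl c) (R.prd l'), ← heq]
      rw [← mul_assoc (R.refl c) (R.refl c * R.refl δ * R.refl c)]
      rw [mul_assoc (R.refl c) (R.refl δ) (R.refl c), R.refl_mul_refl_mul hcp.1]
      rw [mul_assoc, mul_assoc]

/-- The dihedral group. -/
def D (R : RootDatum G V) (a b : V) : Subgroup G := Subgroup.closure {R.refl a, R.refl b}

lemma refl_mem_D {c : V} (hc : c = a ∨ c = b) : R.refl c ∈ R.D a b := by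
  apply Subgroup.subset_closure
  rcases hc with rfl | rfl <;> simp

lemma prd_mem_D {l : List V} (hl : IsWord a b l) : R.prd l ∈ R.D a b := by
  induction l with
  | nil => exact one_mem _
  | cons c l ih =>
    rw [prd_cons]
    exact mul_mem (refl_mem_D hl.head) (ih hl.tail)

lemma Dih.exists_word (h : Dih R P a b) {d : G} (hd : d ∈ R.D a b) :
    ∃ l, IsWord a b l ∧ d = R.prd l := by
  have hone : ∃ l, IsWord a b l ∧ (1 : G) = R.prd l :=
    ⟨[], fun c hc => absurd hc List.not_mem_nil, rfl⟩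
  unfold D at hd
  induction hd using Subgroup.closure_induction_left with
  | one => exact hone
  | mul_left x hx y hy ih =>
    obtain ⟨l, hl, rfl⟩ := ih
    rcases hx with rfl | hx
    · exact ⟨a :: l, hl.cons (Or.inl rfl), by rw [prd_cons]⟩
    · have hx' : x = R.refl b := hx
      subst hx'
      exact ⟨b :: l, hl.cons (Or.inr rfl), by rw [prd_cons]⟩
  | inv_mul_cancel x hx y hy ih =>
    obtain ⟨l, hl, rfl⟩ := ih
    rcases hx with rfl | hx
    · exact ⟨a :: l, hl.cons (Or.inl rfl), by rw [prd_cons, R.refl_inv h.ha.1]⟩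
    · have hx' : x = R.refl b := hx
      subst hx'
      exact ⟨b :: l, hl.cons (Or.inr rfl), by rw [prd_cons, R.refl_inv h.hb.1]⟩

/-- Every element can be brought to level zero. -/
lemma Dih.exists_base (h : Dih R P a b) :
    ∀ n : ℕ, ∀ x : G, R.lev P x = n → ∃ d ∈ R.D a b, ∃ x₀, R.inv P x₀ = ∅ ∧ x = d * x₀ := by
  intro n
  induction n with
  | zero =>
    intro x hx
    exact ⟨1, one_mem _, x, lev_eq_zero.mp hx, by rw [one_mul]⟩
  | succ n ih =>
    intro x hx
    obtain ⟨c, hc, hcx⟩ := h.exists_descent (z := x) (by omega)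
    have h1 := h.lev_descent hc hcx
    obtain ⟨d, hd, x₀, hx₀, h2⟩ := ih (R.refl c * x) (by omega)
    refine ⟨R.refl c * d, mul_mem (refl_mem_D hc) hd, x₀, hx₀, ?_⟩
    rw [mul_assoc, ← h2, R.refl_mul_refl_mul (h.lpos hc).1]

/-- Reflections of the plane lie in the dihedral group. -/
lemma Dih.refl_mem (h : Dih R P a b) {δ : V} (hδ : δ ∈ R.pos P) : R.refl δ ∈ R.D a b := by
  obtain ⟨d, hd, x₀, hx₀, h1⟩ := h.exists_base _ (R.refl δ) rfl
  obtain ⟨l, hl, rfl⟩ := h.exists_word hd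
  have h2 : δ ∈ R.inv P (R.prd l * x₀) := by
    rw [← h1]
    refine ⟨hδ, ?_⟩
    rw [R.refl_inv hδ.1, R.act_refl_self hδ.1, map_neg]
    linarith [hδ.2.2]
  obtain ⟨l', hl', -, h3⟩ := h.exchange hx₀ l hl δ h2
  rw [← h1, R.refl_mul_self δ hδ.1] at h3
  have h4 : x₀ = (R.prd l')⁻¹ := eq_inv_of_mul_eq_one_right h3.symm
  rw [h1, h4]
  exact mul_mem (prd_mem_D hl) (inv_mem (prd_mem_D hl'))

lemma Dih.refl_mem' (h : Dih R P a b) {δ : V} (hδ : δ ∈ R.Φ) (hδP : δ ∈ P) :
    R.refl δ ∈ R.D a b := by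
  rcases lt_trichotomy (R.ht δ) 0 with h1 | h1 | h1
  · rw [← R.refl_neg δ hδ]
    exact h.refl_mem ⟨R.neg_mem hδ, P.neg_mem hδP, by rw [map_neg]; linarith⟩
  · exact absurd h1 (R.ht_ne _ hδ)
  · exact h.refl_mem ⟨hδ, hδP, h1⟩

/-- Uniqueness of the element of level zero. -/
lemma Dih.eq_one (h : Dih R P a b) {x₀ : G} (hx₀ : R.inv P x₀ = ∅) {d : G} (hd : d ∈ R.D a b)
    (hdx : R.inv P (d * x₀) = ∅) : d = 1 := by
  classical
  have hex : ∃ k, ∃ l, IsWord a b l ∧ d = R.prd l ∧ l.length = k := by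
    obtain ⟨l, hl, h1⟩ := h.exists_word hd
    exact ⟨_, l, hl, h1, rfl⟩
  obtain ⟨l, hl, h1, hlen⟩ := Nat.find_spec hex
  have hmin : ∀ l', IsWord a b l' → d = R.prd l' → l.length ≤ l'.length := by
    intro l' hl' h2
    rw [hlen]
    exact Nat.find_min' hex ⟨l', hl', h2, rfl⟩
  cases l with
  | nil => rw [h1, prd_nil]
  | cons c l1 =>
    exfalso
    have hc := hl.head
    have hcp := h.lpos hc
    have h2 : c ∈ R.inv P (R.prd l1 * x₀) := by
      have h3 : R.prd l1 * x₀ = R.refl c * (d * x₀) := by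
        rw [h1, prd_cons, mul_assoc, R.refl_mul_refl_mul hcp.1]
      rw [h3]
      apply (mem_inv_refl_mul hcp _).mpr
      rw [hdx]
      exact Set.notMem_empty c
    obtain ⟨l', hl', hlen', h3⟩ := h.exchange hx₀ l1 hl.tail c h2
    have h4 : d = R.prd l' := by
      have h5 : d * x₀ = R.prd l' * x₀ := by
        rw [← h3, h1, prd_cons, mul_assoc]
      exact mul_right_cancel h5
    have h5 := hmin l' hl' h4
    simp at h5
    omega

/-- The level is at most the length of a word. -/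
lemma Dih.lev_prd_le (h : Dih R P a b) {x₀ : G} (hx₀ : R.inv P x₀ = ∅) {l : List V}
    (hl : IsWord a b l) : R.lev P (R.prd l * x₀) ≤ l.length := by
  induction l with
  | nil =>
    rw [prd_nil, one_mul, lev_eq_zero.mpr hx₀]
    simp
  | cons c l ih =>
    have h1 := ih hl.tail
    rw [prd_cons, mul_assoc]
    by_cases hc : c ∈ R.inv P (R.prd l * x₀)
    · have := h.lev_descent hl.head hc
      simp
      omega
    · rw [h.lev_ascent hl.head hc]
      simp
      omega

lemma Dih.lev_mod_two (h : Dih R P a b) {c : V} (hc : c = a ∨ c = b) (z : G) :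
    R.lev P (R.refl c * z) % 2 = (R.lev P z + 1) % 2 := by
  by_cases hcz : c ∈ R.inv P z
  · have := h.lev_descent hc hcz
    omega
  · rw [h.lev_ascent hc hcz]

lemma Dih.lev_prd_mod (h : Dih R P a b) {l : List V} (hl : IsWord a b l) (z : G) :
    R.lev P (R.prd l * z) % 2 = (R.lev P z + l.length) % 2 := by
  induction l with
  | nil => simp [prd_nil]
  | cons c l ih =>
    rw [prd_cons, mul_assoc, h.lev_mod_two hl.head]
    have := ih hl.tail
    simp only [List.length_cons]
    omega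

/-- Every element of level `n` is a word of length `n` over the base. -/
lemma Dih.exists_word_lev (h : Dih R P a b) {x₀ : G} (hx₀ : R.inv P x₀ = ∅) :
    ∀ n : ℕ, ∀ d ∈ R.D a b, R.lev P (d * x₀) = n →
      ∃ l, IsWord a b l ∧ l.length = n ∧ d * x₀ = R.prd l * x₀ := by
  intro n
  induction n with
  | zero =>
    intro d hd h0
    have h1 := h.eq_one hx₀ hd (lev_eq_zero.mp h0)
    exact ⟨[], fun c hc => absurd hc List.not_mem_nil, rfl, by rw [h1, prd_nil]⟩
  | succ n ih =>
    intro d hd hn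
    obtain ⟨c, hc, hcx⟩ := h.exists_descent (z := d * x₀) (by omega)
    have h1 := h.lev_descent hc hcx
    obtain ⟨l, hl, hlen, h2⟩ := ih (R.refl c * d) (mul_mem (refl_mem_D hc) hd)
      (by rw [mul_assoc]; omega)
    refine ⟨c :: l, hl.cons hc, by simp [hlen], ?_⟩
    rw [prd_cons, mul_assoc (R.refl c) (R.prd l), ← h2, mul_assoc,
      R.refl_mul_refl_mul (h.lpos hc).1]

/-- Multiplying by a reflection which is an inversion decreases the level. -/
lemma Dih.lev_refl_lt (h : Dih R P a b) {x₀ : G} (hx₀ : R.inv P x₀ = ∅) {d : G}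
    (hd : d ∈ R.D a b) {δ : V} (hδ : δ ∈ R.inv P (d * x₀)) :
    R.lev P (R.refl δ * (d * x₀)) < R.lev P (d * x₀) := by
  obtain ⟨l, hl, hlen, h1⟩ := h.exists_word_lev hx₀ _ d hd rfl
  rw [h1] at hδ
  obtain ⟨l', hl', hlen', h2⟩ := h.exchange hx₀ l hl δ hδ
  rw [h1, h2]
  have h3 := h.lev_prd_le hx₀ hl'
  rw [← h1]
  omega

lemma Dih.mem_inv_of_lev_lt (h : Dih R P a b) {x₀ : G} (hx₀ : R.inv P x₀ = ∅) {d : G}
    (hd : d ∈ R.D a b) {δ : V} (hδ : δ ∈ R.pos P)
    (hlt : R.lev P (R.refl δ * (d * x₀)) < R.lev P (d * x₀)) : δ ∈ R.inv P (d * x₀) := by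
  by_contra hcon
  have h1 : δ ∈ R.inv P (R.refl δ * (d * x₀)) := (mem_inv_refl_mul hδ _).mpr hcon
  have h2 : R.refl δ * (d * x₀) = (R.refl δ * d) * x₀ := by rw [mul_assoc]
  rw [h2] at h1
  have h3 := h.lev_refl_lt hx₀ (mul_mem (h.refl_mem hδ) hd) h1
  rw [← h2, R.refl_mul_refl_mul hδ.1] at h3
  omega

/-- Alternating products. -/
def alt (A B : G) : ℕ → G
  | 0 => 1
  | n + 1 => A * alt B A n

lemma alt_zero (A B : G) : alt A B 0 = 1 := rfl

lemma alt_succ (A B : G) (n : ℕ) : alt A B (n + 1) = A * alt B A n := rfl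

lemma alt_succ' (A B : G) (n : ℕ) : ∃ e, (e = A ∨ e = B) ∧ alt A B (n + 1) = alt A B n * e := by
  induction n generalizing A B with
  | zero => exact ⟨A, Or.inl rfl, by simp [alt]⟩
  | succ n ih =>
    obtain ⟨e, he, h1⟩ := ih B A
    exact ⟨e, he.symm, by rw [alt_succ A B (n + 1), h1, ← mul_assoc, ← alt_succ]⟩

/-- Normal form in a coset. -/
lemma Dih.normal_form {x₀ : G} (hx₀ : R.inv P x₀ = ∅) :
    ∀ n : ℕ, ∀ a b : V, Dih R P a b → ∀ d ∈ R.D a b, R.lev P (d * x₀) = n →
      a ∈ R.inv P (d * x₀) → d * x₀ = alt (R.refl a) (R.refl b) n * x₀ := by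
  intro n
  induction n with
  | zero =>
    intro a b h d hd h0 hmem
    rw [lev_eq_zero.mp h0] at hmem
    exact absurd hmem (Set.notMem_empty _)
  | succ n ih =>
    intro a b h d hd hn hmem
    have h1 := h.lev_descent (Or.inl rfl) hmem
    have h2 : R.refl a * (d * x₀) = (R.refl a * d) * x₀ := by rw [mul_assoc]
    have hd' : R.refl a * d ∈ R.D a b := mul_mem (refl_mem_D (Or.inl rfl)) hd
    have h3 : a ∉ R.inv P ((R.refl a * d) * x₀) := by
      rw [← h2, mem_inv_refl_mul h.ha]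
      exact not_not_intro hmem
    have hDsymm : R.D a b = R.D b a := by unfold D; rw [Set.pair_comm]
    have key : (R.refl a * d) * x₀ = alt (R.refl b) (R.refl a) n * x₀ := by
      rcases Nat.eq_zero_or_pos n with hn0 | hn0
      · subst hn0
        have h4 := h.eq_one hx₀ hd' (lev_eq_zero.mp (by rw [← h2]; omega))
        rw [h4, alt_zero]
      · obtain ⟨c, hc, hcx⟩ := h.exists_descent (z := (R.refl a * d) * x₀)
          (by rw [← h2]; omega)
        have hcb : c = b := by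
          rcases hc with rfl | hc
          · exact absurd hcx h3
          · exact hc
        subst hcb
        exact ih c a h.swap _ (hDsymm ▸ hd') (by rw [← h2]; omega) hcx
    rw [alt_succ, mul_assoc, ← key, mul_assoc, R.refl_mul_refl_mul h.ha.1]

/-- Equal levels and a common descent. -/
lemma Dih.eq_of_descent (h : Dih R P a b) {x₀ : G} (hx₀ : R.inv P x₀ = ∅) {d d' : G}
    (hd : d ∈ R.D a b) (hd' : d' ∈ R.D a b) (hlev : R.lev P (d * x₀) = R.lev P (d' * x₀))
    {c : V} (hc : c = a ∨ c = b) (h1 : c ∈ R.inv P (d * x₀)) (h2 : c ∈ R.inv P (d' * x₀)) :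
    d * x₀ = d' * x₀ := by
  have hDsymm : R.D a b = R.D b a := by unfold D; rw [Set.pair_comm]
  rcases hc with rfl | rfl
  · rw [Dih.normal_form hx₀ _ c b h d hd rfl h1, Dih.normal_form hx₀ _ c b h d' hd' rfl h2, hlev]
  · rw [Dih.normal_form hx₀ _ c a h.swap d (hDsymm ▸ hd) rfl h1,
      Dih.normal_form hx₀ _ c a h.swap d' (hDsymm ▸ hd') rfl h2, hlev]

end RootDatum

end Pool.Agent.Lib.MP_2f4918_al
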