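import Pool.Agent.Lib.MP_2f4918_al.Level
import Pool.Agent.Lib.MP_2f4918_al.Ext

section

/-!
# Lengths against levels, and the first two cases
-/

namespace Pool.Agent.Lib.MP_2f4918_al

namespace RootDatum

variable {G V : Type*} [Group G] [AddCommGroup V] [Module ℝ V] {R : RootDatum G V}
  {P : Submodule ℝ V} {a b : V}

lemma Dih.D_act_mem (h : Dih R P a b) {d : G} (hd : d ∈ R.D a b) {v : V} (hv : v ∈ P) :
    R.act d v ∈ P := by
  obtain ⟨l, hl, rfl⟩ := h.exists_word hd
  clear hd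
  induction l with
  | nil => rw [prd_nil, R.act_one]; exact hv
  | cons c l ih =>
    rw [prd_cons, R.act_mul]
    exact act_refl_mem (h.lpos hl.head).1 (h.lpos hl.head).2.1 (ih hl.tail)

lemma D_swap : R.D a b = R.D b a := by unfold D; rw [Set.pair_comm]

/-- Choose the positive one among `τ, -τ`. -/
lemma exists_pos {τ : V} (hτ : τ ∈ R.Φ) (hτP : τ ∈ P) :
    ∃ τ' ∈ R.pos P, R.refl τ' = R.refl τ := by
  rcases lt_trichotomy (R.ht τ) 0 with h1 | h1 | h1
  · exact ⟨-τ, ⟨R.neg_mem hτ, P.neg_mem hτP, by rw [map_neg]; linarith⟩, R.refl_neg τ hτ⟩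
  · exact absurd h1 (R.ht_ne _ hτ)
  · exact ⟨τ, ⟨hτ, hτP, h1⟩, rfl⟩

lemma alt_mem_D (n : ℕ) : ∀ a b : V, alt (R.refl a) (R.refl b) n ∈ R.D a b := by
  induction n with
  | zero => intro a b; exact one_mem _
  | succ n ih =>
    intro a b
    rw [alt_succ]
    refine mul_mem (refl_mem_D (Or.inl rfl)) ?_
    rw [D_swap]
    exact ih b a

lemma Dih.adj_aux (h : Dih R P a b) {x₀ : G} (hx₀ : R.inv P x₀ = ∅) {d d' : G}
    (hd : d ∈ R.D a b) (hd' : d' ∈ R.D a b)
    (hlev : R.lev P (d' * x₀) = R.lev P (d * x₀) + 1) (h1 : a ∈ R.inv P (d * x₀))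
    (h2 : a ∈ R.inv P (d' * x₀)) : ∃ τ ∈ R.pos P, d' * x₀ = R.refl τ * (d * x₀) := by
  have e1 := Dih.normal_form hx₀ _ a b h d hd rfl h1
  have e2 := Dih.normal_form hx₀ _ a b h d' hd' rfl h2
  rw [hlev] at e2
  set n := R.lev P (d * x₀)
  obtain ⟨e, he, h3⟩ := alt_succ' (R.refl a) (R.refl b) n
  obtain ⟨c, hc, hce⟩ : ∃ c, (c = a ∨ c = b) ∧ e = R.refl c := by
    rcases he with he | he
    · exact ⟨a, Or.inl rfl, he⟩
    · exact ⟨b, Or.inr rfl, he⟩
  set w := alt (R.refl a) (R.refl b) n with hw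
  have hwD : w ∈ R.D a b := alt_mem_D n a b
  have hcp := h.lpos hc
  obtain ⟨τ, hτ, h4⟩ := exists_pos (R := R) (P := P) (R.act_mem w c hcp.1)
    (h.D_act_mem hwD hcp.2.1)
  refine ⟨τ, hτ, ?_⟩
  rw [h4, e1, e2, h3, hce, R.refl_act hcp.1]
  group

lemma Dih.adj (h : Dih R P a b) {x₀ : G} (hx₀ : R.inv P x₀ = ∅) {d d' : G}
    (hd : d ∈ R.D a b) (hd' : d' ∈ R.D a b)
    (hlev : R.lev P (d' * x₀) = R.lev P (d * x₀) + 1) :
    ∃ τ ∈ R.pos P, d' * x₀ = R.refl τ * (d * x₀) := by
  obtain ⟨c, hc, hcx⟩ := h.exists_descent (z := d' * x₀) (by omega)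
  have hcp := h.lpos hc
  have h1 := h.lev_descent hc hcx
  have hcd : R.refl c * d' ∈ R.D a b := mul_mem (refl_mem_D hc) hd'
  have hass : R.refl c * (d' * x₀) = (R.refl c * d') * x₀ := by rw [mul_assoc]
  rcases Nat.eq_zero_or_pos (R.lev P (d * x₀)) with h0 | h0
  · have e1 := h.eq_one hx₀ hd (lev_eq_zero.mp h0)
    have e2 := h.eq_one hx₀ hcd (lev_eq_zero.mp (by rw [← hass]; omega))
    refine ⟨c, hcp, ?_⟩
    have e3 : d' = R.refl c := by
      rw [← R.refl_mul_refl_mul hcp.1 d', e2, mul_one]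
    rw [e1, e3, one_mul]
  · obtain ⟨e, he, hex⟩ := h.exists_descent (z := d * x₀) h0
    by_cases hec : e = c
    · subst hec
      rcases he with rfl | rfl
      · exact h.adj_aux hx₀ hd hd' hlev hex hcx
      · exact h.swap.adj_aux hx₀ (by rw [D_swap]; exact hd) (by rw [D_swap]; exact hd') hlev hex hcx
    · obtain ⟨f, hf, hfx⟩ := h.exists_descent (z := (R.refl c * d') * x₀)
        (by rw [← hass]; omega)
      have hfc : f ≠ c := by
        rintro rfl
        rw [← hass, mem_inv_refl_mul hcp] at hfx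
        exact hfx hcx
      have hfe : f = e := by
        rcases hf with rfl | rfl <;> rcases he with rfl | rfl <;> rcases hc with rfl | rfl <;>
          first
          | rfl
          | exact absurd rfl hfc
          | exact absurd rfl hec
      subst hfe
      have h2 := h.eq_of_descent hx₀ hd hcd (by rw [← hass]; omega) he hex hfx
      refine ⟨c, hcp, ?_⟩
      rw [h2, ← hass, R.refl_mul_refl_mul hcp.1]

lemma len_lt_of_inv {δ : V} {g : G} (hδ : δ ∈ R.inv P g) : R.len (R.refl δ * g) < R.len g :=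
  R.len_lt g δ hδ.1.1 hδ.1.2.2 hδ.2

/-- Lengths grow at least as fast as levels. -/
lemma Dih.len_add_le (h : Dih R P a b) {x₀ : G} (hx₀ : R.inv P x₀ = ∅) :
    ∀ k : ℕ, ∀ d ∈ R.D a b, ∀ d' ∈ R.D a b, R.lev P (d' * x₀) = R.lev P (d * x₀) + 1 + k →
      R.len (d * x₀) + 1 + k ≤ R.len (d' * x₀) := by
  intro k
  induction k with
  | zero =>
    intro d hd d' hd' hlev
    obtain ⟨τ, hτ, h1⟩ := h.adj hx₀ hd hd' hlev
    have h2 : R.refl τ * (d' * x₀) = d * x₀ := by rw [h1, R.refl_mul_refl_mul hτ.1]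
    have h3 := h.mem_inv_of_lev_lt hx₀ hd' hτ (by rw [h2]; omega)
    have h4 := len_lt_of_inv h3
    rw [h2] at h4
    omega
  | succ k ih =>
    intro d hd d' hd' hlev
    obtain ⟨c, hc, hcx⟩ := h.exists_descent (z := d' * x₀) (by omega)
    have h1 := h.lev_descent hc hcx
    have h2 := len_lt_of_inv hcx
    have hass : R.refl c * (d' * x₀) = (R.refl c * d') * x₀ := by rw [mul_assoc]
    have h3 := ih d hd (R.refl c * d') (mul_mem (refl_mem_D hc) hd') (by rw [← hass]; omega)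
    rw [← hass] at h3
    omega

lemma Dih.len_le_of_lev (h : Dih R P a b) {x₀ : G} (hx₀ : R.inv P x₀ = ∅) {d d' : G}
    (hd : d ∈ R.D a b) (hd' : d' ∈ R.D a b) (hlt : R.lev P (d * x₀) < R.lev P (d' * x₀)) :
    R.len (d * x₀) + (R.lev P (d' * x₀) - R.lev P (d * x₀)) ≤ R.len (d' * x₀) := by
  obtain ⟨k, hk⟩ : ∃ k, R.lev P (d' * x₀) = R.lev P (d * x₀) + 1 + k :=
    ⟨R.lev P (d' * x₀) - R.lev P (d * x₀) - 1, by omega⟩
  have := h.len_add_le hx₀ k d hd d' hd' hk
  omega

lemma Dih.lev_refl_mod (h : Dih R P a b) {x₀ : G} (hx₀ : R.inv P x₀ = ∅) {d : G}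
    (hd : d ∈ R.D a b) {δ : V} (hδ : δ ∈ R.pos P) :
    R.lev P (R.refl δ * (d * x₀)) % 2 = (R.lev P (d * x₀) + 1) % 2 := by
  have key : ∀ d ∈ R.D a b, δ ∈ R.inv P (d * x₀) →
      R.lev P (R.refl δ * (d * x₀)) % 2 = (R.lev P (d * x₀) + 1) % 2 := by
    intro d hd hmem
    obtain ⟨l, hl, rfl⟩ := h.exists_word hd
    obtain ⟨l', hl', hlen, h1⟩ := h.exchange hx₀ l hl δ hmem
    rw [h1]
    have h2 := h.lev_prd_mod hl x₀
    have h3 := h.lev_prd_mod hl' x₀
    rw [lev_eq_zero.mpr hx₀] at h2 h3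
    omega
  by_cases hmem : δ ∈ R.inv P (d * x₀)
  · exact key d hd hmem
  · have h1 := (mem_inv_refl_mul hδ _).mpr hmem
    rw [← mul_assoc] at h1
    have h2 := key (R.refl δ * d) (mul_mem (h.refl_mem hδ) hd) h1
    rw [mul_assoc, R.refl_mul_refl_mul hδ.1] at h2
    omega

/-- A simple root in the plane is one of the two letters. -/
lemma Dih.simple_mem (h : Dih R P a b) {e : V} (he : e ∈ R.pos P)
    (hs : ∀ δ ∈ R.pos P, R.ht (R.act (R.refl e) δ) < 0 → δ = e) : e = a ∨ e = b := by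
  have h1 : (R.inv P (R.refl e)).Nonempty := by
    refine ⟨e, he, ?_⟩
    rw [R.refl_inv he.1, R.act_refl_self he.1, map_neg]
    linarith [he.2.2]
  rcases h.desc _ h1 with h2 | h2
  · left
    have h3 := h2.2
    rw [R.refl_inv he.1] at h3
    exact (hs a h.ha h3).symm
  · right
    have h3 := h2.2
    rw [R.refl_inv he.1] at h3
    exact (hs b h.hb h3).symm

lemma conj_eq {x : G} {δ : V} (hδ : δ ∈ R.Φ) :
    R.refl δ * x * R.refl δ = R.refl δ * (R.refl (R.act x δ) * x) := by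
  rw [R.refl_act hδ]; group

/-- The second case: the conjugate has larger level. -/
theorem Dih.case_two (h : Dih R P a b) {x : G} (hxP : ∀ v ∈ P, R.act x v ∈ P) {β e : V}
    (hβ : β ∈ R.pos P) (he : R.IsSimple e)
    (hlev : R.lev P x < R.lev P (R.refl β * x * R.refl β))
    (hlen : R.len (R.refl β * x * R.refl β) = R.len x + 2)
    (h1 : R.len x < R.len (R.refl e * x))
    (h2 : R.len (R.refl e * (R.refl β * x * R.refl β)) < R.len (R.refl β * x * R.refl β))
    (h3 : R.len x < R.len (x * R.refl e))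
    (h4 : R.len (x * R.refl e) < R.len (R.refl e * x * R.refl e))
    (h5 : R.len (R.refl e * x * R.refl e) = R.len x + 2) :
    R.refl e * x * R.refl e = R.refl β * x * R.refl β := by
  obtain ⟨d, hd, x₀, hx₀, rfl⟩ := h.exists_base _ x rfl
  set x := d * x₀ with hx
  -- the element `y'`
  set y' := R.refl β * x * R.refl β with hy'
  set d' := R.refl β * (R.refl (R.act x β) * d) with hd'def
  have hd' : d' ∈ R.D a b :=
    mul_mem (h.refl_mem hβ) (mul_mem (h.refl_mem' (R.act_mem _ _ hβ.1) (hxP _ hβ.2.1)) hd)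
  have hy'd : y' = d' * x₀ := by
    rw [hy', conj_eq hβ.1, hd'def, hx]
    group
  obtain ⟨β', hβ', hββ'⟩ := exists_pos (R := R) (P := P) (R.act_mem x β hβ.1) (hxP _ hβ.2.1)
  have hpar : R.lev P y' % 2 = R.lev P x % 2 := by
    have e1 := h.lev_refl_mod hx₀ hd hβ'
    have e2 := h.lev_refl_mod hx₀ (mul_mem (h.refl_mem hβ') hd) hβ
    rw [hββ', mul_assoc (R.refl (R.act x β)), ← hx, ← conj_eq hβ.1, ← hy'] at e2
    rw [hββ', ← hx] at e1
    omega
  have hG := h.len_le_of_lev hx₀ hd hd' (by rw [← hy'd]; exact hlev)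
  rw [← hy'd, ← hx] at hG
  have hlev2 : R.lev P y' = R.lev P x + 2 := by omega
  obtain ⟨c, hc, hcy⟩ := h.exists_descent (z := y') (by omega)
  have hcp := h.lpos hc
  set z := R.refl c * y' with hz
  have hzd : z = (R.refl c * d') * x₀ := (congrArg _ hy'd).trans (mul_assoc _ _ _).symm
  have hcd' : R.refl c * d' ∈ R.D a b := mul_mem (refl_mem_D hc) hd'
  have hlevz : R.lev P z + 1 = R.lev P y' := h.lev_descent hc hcy
  have hlenz : R.len z < R.len y' := len_lt_of_inv hcy
  have hG2 := h.len_le_of_lev hx₀ hd hcd' (by rw [← hzd, ← hx]; omega)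
  rw [← hzd, ← hx] at hG2
  have hlenz' : R.len z = R.len x + 1 := by omega
  obtain ⟨τ, hτ, hzτ⟩ := h.adj hx₀ hd hcd' (by rw [← hzd, ← hx]; omega)
  rw [← hzd, ← hx] at hzτ
  have hy'z : y' = R.refl c * z := by rw [hz, R.refl_mul_refl_mul hcp.1]
  -- the simple root lies in the plane
  have heP : e ∈ R.pos P := by
    rcases lt_trichotomy (R.len (R.refl e * z)) (R.len z) with hez | hez | hez
    · have := R.simple_of_cover he hτ.1 hτ.2.2 (z := x) (by rw [← hzτ]; exact hlenz') h1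
        (by rw [← hzτ]; exact hez)
      rw [← this]; exact hτ
    · exfalso
      have e1 := R.len_lt_iff he.1 he.2.1 z
      have e2 := R.lt_len_iff he.1 he.2.1 z
      have e3 := R.ht_ne _ (R.act_mem z⁻¹ _ he.1)
      rcases lt_or_gt_of_ne e3 with e4 | e4
      · have := e1.mpr e4; omega
      · have := e2.mpr e4; omega
    · have := R.simple_of_cover he hcp.1 hcp.2.2 (z := z) (by rw [← hy'z]; omega) hez
        (by rw [← hy'z]; exact h2)
      rw [← this]; exact hcp
  have hel : e = a ∨ e = b :=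
    h.simple_mem heP (fun δ hδ hneg => he.2.2 δ hδ.1 hδ.2.2 hneg)
  -- the element `y`
  set y := R.refl e * x * R.refl e with hy
  set d'' := R.refl e * (R.refl (R.act x e) * d) with hd''def
  obtain ⟨e', he', hee'⟩ := exists_pos (R := R) (P := P) (R.act_mem x e he.1) (hxP _ heP.2.1)
  have hd1 : R.refl (R.act x e) * d ∈ R.D a b := mul_mem (hee' ▸ h.refl_mem he') hd
  have hd'' : d'' ∈ R.D a b := mul_mem (refl_mem_D hel) hd1
  have hyd : y = d'' * x₀ := by
    rw [hy, conj_eq he.1, hd''def, hx]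
    group
  have hxs : x * R.refl e = (R.refl (R.act x e) * d) * x₀ := by
    rw [R.refl_act he.1, mul_assoc _ d, ← hx]; group
  have hey : e ∈ R.inv P y := by
    refine ⟨heP, (R.len_lt_iff he.1 he.2.1 y).mp ?_⟩
    have : R.refl e * y = x * R.refl e := by
      rw [hy, mul_assoc, R.refl_mul_refl_mul he.1]
    rw [this]
    exact h4
  have hey' : e ∈ R.inv P y' := ⟨heP, (R.len_lt_iff he.1 he.2.1 y').mp h2⟩
  have hpar2 : R.lev P y % 2 = R.lev P x % 2 := by
    have e1 := h.lev_refl_mod hx₀ hd he'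
    have e2 := h.lev_refl_mod hx₀ (mul_mem (h.refl_mem he') hd) heP
    rw [hee', mul_assoc (R.refl (R.act x e)), ← hx, ← conj_eq he.1, ← hy] at e2
    rw [hee', ← hx] at e1
    omega
  have hlevxs : R.lev P (x * R.refl e) + 1 = R.lev P y := by
    have e1 := h.lev_descent hel hey
    have : R.refl e * y = x * R.refl e := by
      rw [hy, mul_assoc, R.refl_mul_refl_mul he.1]
    rwa [this] at e1
  have hge : R.lev P x ≤ R.lev P y := by
    by_contra hcon
    push Not at hcon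
    have e1 := h.len_le_of_lev hx₀ hd'' hd (by rw [← hyd, ← hx]; exact hcon)
    rw [← hyd, ← hx] at e1
    omega
  have hne : R.lev P y ≠ R.lev P x := by
    intro heq
    have e1 := h.len_le_of_lev hx₀ hd1 hd (by rw [← hxs, ← hx]; omega)
    rw [← hxs, ← hx] at e1
    omega
  have hle : R.lev P y ≤ R.lev P x + 2 := by
    by_contra hcon
    push Not at hcon
    have e1 := h.len_le_of_lev hx₀ hd hd'' (by rw [← hyd, ← hx]; omega)
    rw [← hyd, ← hx] at e1
    omega
  have hlevy : R.lev P y = R.lev P y' := by omega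
  have e1 := h.eq_of_descent hx₀ hd'' hd' (by rw [← hyd, ← hy'd]; exact hlevy) hel
    (by rw [← hyd]; exact hey) (by rw [← hy'd]; exact hey')
  exact hyd.trans (e1.trans hy'd.symm)

/-- The first case: the conjugate has smaller level. -/
theorem Dih.case_one (h : Dih R P a b) {x : G} (hxP : ∀ v ∈ P, R.act x v ∈ P) {β : V}
    (hβ : β ∈ R.pos P) (hlen : R.len x ≤ R.len (R.refl β * x * R.refl β)) :
    R.lev P x ≤ R.lev P (R.refl β * x * R.refl β) := by
  by_contra hcon
  push Not at hcon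
  obtain ⟨d, hd, x₀, hx₀, rfl⟩ := h.exists_base _ x rfl
  set x := d * x₀ with hx
  set d' := R.refl β * (R.refl (R.act x β) * d) with hd'def
  have hd' : d' ∈ R.D a b :=
    mul_mem (h.refl_mem hβ) (mul_mem (h.refl_mem' (R.act_mem _ _ hβ.1) (hxP _ hβ.2.1)) hd)
  have hy'd : R.refl β * x * R.refl β = d' * x₀ := by
    rw [conj_eq hβ.1, hd'def, hx]
    group
  have e1 := h.len_le_of_lev hx₀ hd' hd (by rw [← hy'd, ← hx]; exact hcon)
  rw [← hy'd, ← hx] at e1
  omega

end RootDatum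

end Pool.Agent.Lib.MP_2f4918_al
end

section

/-!
# The third case: equal levels force a finite dihedral group
-/

namespace Pool.Agent.Lib.MP_2f4918_al

namespace RootDatum

section Group

variable {G : Type*} [Group G]

lemma mul_zpow_comm {A B : G} (hA : A * A = 1) (hB : B * B = 1) (k : ℤ) (w : G) :
    A * ((A * B) ^ k * w) = (A * B) ^ (-k) * (A * w) := by
  have h1 : SemiconjBy A (A * B) ((A * B)⁻¹) := by
    unfold SemiconjBy
    have hA' : A⁻¹ = A := inv_eq_of_mul_eq_one_left hA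
    have hB' : B⁻¹ = B := inv_eq_of_mul_eq_one_left hB
    rw [mul_inv_rev, hA', hB', mul_assoc, hA, mul_one, ← mul_assoc, hA, one_mul]
  have h2 := (h1.zpow_right k).eq
  rw [← mul_assoc, h2, inv_zpow', mul_assoc]

lemma eq_inv_mul {A B : G} (hA : A * A = 1) (hB : B * B = 1) (w : G) :
    B * w = (A * B) ^ (-1 : ℤ) * (A * w) := by
  have hA' : A⁻¹ = A := inv_eq_of_mul_eq_one_left hA
  have hB' : B⁻¹ = B := inv_eq_of_mul_eq_one_left hB
  rw [zpow_neg_one, mul_inv_rev, hA', hB', mul_assoc, ← mul_assoc A A, hA, one_mul]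

lemma dihedral_mem {A B : G} (hA : A * A = 1) (hB : B * B = 1) {d : G}
    (hd : d ∈ Subgroup.closure ({A, B} : Set G)) :
    ∃ k : ℤ, d = (A * B) ^ k ∨ d = (A * B) ^ k * A := by
  have hA' : A⁻¹ = A := inv_eq_of_mul_eq_one_left hA
  have hB' : B⁻¹ = B := inv_eq_of_mul_eq_one_left hB
  have stepA : ∀ y : G, (∃ k : ℤ, y = (A * B) ^ k ∨ y = (A * B) ^ k * A) →
      ∃ k : ℤ, A * y = (A * B) ^ k ∨ A * y = (A * B) ^ k * A := by
    rintro y ⟨k, rfl | rfl⟩
    · refine ⟨-k, Or.inr ?_⟩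
      have := mul_zpow_comm hA hB k 1
      simpa using this
    · refine ⟨-k, Or.inl ?_⟩
      have := mul_zpow_comm hA hB k A
      rw [this, hA, mul_one]
  have stepB : ∀ y : G, (∃ k : ℤ, y = (A * B) ^ k ∨ y = (A * B) ^ k * A) →
      ∃ k : ℤ, B * y = (A * B) ^ k ∨ B * y = (A * B) ^ k * A := by
    intro y hy
    obtain ⟨k, hk⟩ := stepA y hy
    refine ⟨-1 + k, ?_⟩
    rw [eq_inv_mul hA hB]
    rcases hk with hk | hk
    · left; rw [hk, ← zpow_add]
    · right; rw [hk, ← mul_assoc, ← zpow_add]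
  induction hd using Subgroup.closure_induction_left with
  | one => exact ⟨0, Or.inl (by simp)⟩
  | mul_left x hx y hy ih =>
    rcases hx with rfl | hx
    · exact stepA y ih
    · have hx' : x = B := hx
      subst hx'
      exact stepB y ih
  | inv_mul_cancel x hx y hy ih =>
    rcases hx with rfl | hx
    · rw [hA']; exact stepA y ih
    · have hx' : x = B := hx
      subst hx'
      rw [hB']; exact stepB y ih

lemma alt_even_odd {A B : G} (hA : A * A = 1) (hB : B * B = 1) (m : ℕ) :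
    alt A B (2 * m) = (A * B) ^ (m : ℤ) ∧ alt B A (2 * m) = (A * B) ^ (-(m : ℤ)) ∧
    alt A B (2 * m + 1) = (A * B) ^ (m : ℤ) * A ∧
    alt B A (2 * m + 1) = (A * B) ^ (-(m : ℤ) - 1) * A := by
  have step : ∀ m : ℕ, alt A B (2 * m) = (A * B) ^ (m : ℤ) →
      alt B A (2 * m) = (A * B) ^ (-(m : ℤ)) →
      alt A B (2 * m + 1) = (A * B) ^ (m : ℤ) * A ∧
      alt B A (2 * m + 1) = (A * B) ^ (-(m : ℤ) - 1) * A := by
    intro m h1 h2
    constructor
    · rw [alt_succ, h2]
      have := mul_zpow_comm hA hB (-(m : ℤ)) 1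
      simpa using this
    · rw [alt_succ, h1, eq_inv_mul hA hB]
      have := mul_zpow_comm hA hB (m : ℤ) 1
      simp only [mul_one] at this
      rw [this, ← mul_assoc, ← zpow_add]
      congr 2
      ring
  induction m with
  | zero => exact ⟨by simp [alt], by simp [alt], (step 0 (by simp [alt]) (by simp [alt]))⟩
  | succ m ih =>
    obtain ⟨h1, h2, h3, h4⟩ := ih
    have h5 : alt A B (2 * (m + 1)) = (A * B) ^ ((m + 1 : ℕ) : ℤ) := by
      rw [show 2 * (m + 1) = (2 * m + 1) + 1 by ring, alt_succ, h4, mul_zpow_comm hA hB, hA,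
        mul_one]
      congr 1
      push_cast
      ring
    have h6 : alt B A (2 * (m + 1)) = (A * B) ^ (-((m + 1 : ℕ) : ℤ)) := by
      rw [show 2 * (m + 1) = (2 * m + 1) + 1 by ring, alt_succ, h3, eq_inv_mul hA hB,
        mul_zpow_comm hA hB, hA, mul_one, ← zpow_add]
      congr 1
      push_cast
      ring
    exact ⟨h5, h6, step _ h5 h6⟩

lemma key_group {A B x₀ t : G} (hA : A * A = 1) (hB : B * B = 1) (h0 : x₀ * x₀ = 1)
    (hθ : (x₀ * A = A * x₀ ∧ x₀ * B = B * x₀) ∨ (x₀ * A = B * x₀ ∧ x₀ * B = A * x₀))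
    {n : ℕ} (hn : 0 < n) (hx : (alt A B n * x₀) * (alt A B n * x₀) = 1)
    (ht : t ∈ Subgroup.closure ({A, B} : Set G)) (ht2 : t * t = 1) (ht1 : t ≠ 1)
    (hconj : t * (alt A B n * x₀) * t = alt B A n * x₀) :
    ∃ k : ℤ, k ≠ 0 ∧ (A * B) ^ k = 1 := by
  obtain ⟨i, hi | hi⟩ := dihedral_mem hA hB ht
  · refine ⟨i + i, ?_, ?_⟩
    · intro h1
      have : i = 0 := by omega
      subst this
      exact ht1 (by rw [hi]; simp)
    · rw [zpow_add, ← hi, ht2]
  · set ρ := A * B with hρ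
    have r1 : ∀ (k : ℤ) (w : G), A * (ρ ^ k * w) = ρ ^ (-k) * (A * w) := mul_zpow_comm hA hB
    have r2 : ∀ w : G, A * (A * w) = w := fun w => by rw [← mul_assoc, hA, one_mul]
    have r3 : ∀ (k l : ℤ) (w : G), ρ ^ k * (ρ ^ l * w) = ρ ^ (k + l) * w := fun k l w => by
      rw [← mul_assoc, ← zpow_add]
    have r4 : ∀ w : G, x₀ * (x₀ * w) = w := fun w => by rw [← mul_assoc, h0, one_mul]
    obtain ⟨m, hm⟩ := Nat.even_or_odd' n
    obtain ⟨e1, e2, e3, e4⟩ := alt_even_odd hA hB m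
    rw [← hρ] at e1 e2 e3 e4
    rcases hθ with ⟨c1, c2⟩ | ⟨c1, c2⟩
    · have s1 : ∀ w : G, x₀ * (A * w) = A * (x₀ * w) := fun w => by
        rw [← mul_assoc, c1, mul_assoc]
      have s2 : ∀ (k : ℤ) (w : G), x₀ * (ρ ^ k * w) = ρ ^ k * (x₀ * w) := fun k w => by
        have h1 : Commute x₀ ρ := by
          rw [hρ]
          exact (show Commute x₀ A from c1).mul_right c2
        rw [← mul_assoc, (h1.zpow_right k).eq, mul_assoc]
      rcases hm with hm | hm
      · rw [hm, e1] at hx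
        refine ⟨m + m, by omega, ?_⟩
        rw [mul_assoc, s2, r3, h0, mul_one] at hx
        exact hx
      · rw [hm, e3, e4, hi] at hconj
        have h1 : (ρ ^ i * A) * (ρ ^ (m : ℤ) * A * x₀) * (ρ ^ i * A) =
            ρ ^ (i + i - m) * (A * x₀) := by
          simp only [mul_assoc, r1, r3, s2]
          rw [show x₀ * A = A * x₀ from c1]
          simp only [r1, r2, r3]
          congr 2
          ring
        rw [h1, mul_assoc] at hconj
        have h2 := mul_right_cancel hconj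
        refine ⟨i + i - m - (-(m : ℤ) - 1), by omega, ?_⟩
        rw [zpow_sub, h2, mul_inv_cancel]
    · have s1 : ∀ w : G, x₀ * (A * w) = ρ ^ (-1 : ℤ) * (A * (x₀ * w)) := fun w => by
        rw [← mul_assoc, c1, mul_assoc, eq_inv_mul hA hB]
      have s2 : ∀ (k : ℤ) (w : G), x₀ * (ρ ^ k * w) = ρ ^ (-k) * (x₀ * w) := fun k w => by
        have h1 : SemiconjBy x₀ ρ ρ⁻¹ := by
          unfold SemiconjBy
          have hA' : A⁻¹ = A := inv_eq_of_mul_eq_one_left hA
          have hB' : B⁻¹ = B := inv_eq_of_mul_eq_one_left hB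
          rw [hρ, mul_inv_rev, hA', hB', ← mul_assoc, c1, mul_assoc, c2, ← mul_assoc]
        rw [← mul_assoc, (h1.zpow_right k).eq, inv_zpow', mul_assoc]
      rcases hm with hm | hm
      · rw [hm, e1, e2, hi] at hconj
        have h1 : (ρ ^ i * A) * (ρ ^ (m : ℤ) * x₀) * (ρ ^ i * A) =
            ρ ^ (i - m + i + 1) * x₀ := by
          have h3 : x₀ * A = ρ ^ (-1 : ℤ) * (A * x₀) := by
            have := s1 1
            simpa using this
          simp only [mul_assoc, r1, r3, s2]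
          rw [h3]
          simp only [r1, r2, r3]
          congr 2
          ring
        rw [h1] at hconj
        have h2 := mul_right_cancel hconj
        refine ⟨i - m + i + 1 - (-(m : ℤ)), by omega, ?_⟩
        rw [zpow_sub, h2, mul_inv_cancel]
      · rw [hm, e3] at hx
        refine ⟨m + m + 1, by omega, ?_⟩
        have h1 : (ρ ^ (m : ℤ) * A * x₀) * (ρ ^ (m : ℤ) * A * x₀) = ρ ^ ((m : ℤ) + m + 1) := by
          simp only [mul_assoc, r1, r3, s2, s1, r2]
          rw [h0, mul_one]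
          congr 1
          ring
        rw [← h1]; exact hx

end Group

variable {G V : Type*} [Group G] [AddCommGroup V] [Module ℝ V] {R : RootDatum G V}
  {P : Submodule ℝ V} {a b : V}

lemma inv_one_eq : R.inv P (1 : G) = ∅ := by
  rw [Set.eq_empty_iff_forall_notMem]
  intro δ hδ
  have h1 := hδ.2
  rw [inv_one, R.act_one] at h1
  linarith [hδ.1.2.2]

lemma Dih.conj_mem_D (h : Dih R P a b) {x : G} (hxP : ∀ v ∈ P, R.act x v ∈ P) {d : G}
    (hd : d ∈ R.D a b) : x * d * x⁻¹ ∈ R.D a b := by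
  obtain ⟨l, hl, rfl⟩ := h.exists_word hd
  clear hd
  induction l with
  | nil => rw [prd_nil, mul_one, mul_inv_cancel]; exact one_mem _
  | cons c l ih =>
    have h1 : x * R.prd (c :: l) * x⁻¹ = (x * R.refl c * x⁻¹) * (x * R.prd l * x⁻¹) := by
      rw [prd_cons]; group
    have hcp := h.lpos hl.head
    rw [h1, ← R.refl_act hcp.1]
    exact mul_mem (h.refl_mem' (R.act_mem _ _ hcp.1) (hxP _ hcp.2.1)) (ih hl.tail)

lemma act_inv_pos {x₀ : G} (hx₀ : R.inv P x₀ = ∅) (hP : ∀ v ∈ P, R.act x₀⁻¹ v ∈ P) {δ : V}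
    (hδ : δ ∈ R.pos P) : R.act x₀⁻¹ δ ∈ R.pos P := by
  refine ⟨R.act_mem _ _ hδ.1, hP _ hδ.2.1, ?_⟩
  rcases lt_trichotomy (R.ht (R.act x₀⁻¹ δ)) 0 with h1 | h1 | h1
  · have h2 : δ ∈ R.inv P x₀ := ⟨hδ, h1⟩
    rw [hx₀] at h2
    exact absurd h2 (Set.notMem_empty _)
  · exact absurd h1 (R.ht_ne _ (R.act_mem _ _ hδ.1))
  · exact h1

/-- The third case. -/
theorem Dih.case_three_aux (h : Dih R P a b) {x : G} (hx2 : x * x = 1)
    (hxP : ∀ v ∈ P, R.act x v ∈ P) {β : V} (hβ : β ∈ R.pos P)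
    (hlev : R.lev P (R.refl β * x * R.refl β) = R.lev P x)
    (hne : R.refl β * x * R.refl β ≠ x) (hax : a ∈ R.inv P x) :
    ∃ k : ℤ, k ≠ 0 ∧ (R.refl a * R.refl b) ^ k = 1 := by
  obtain ⟨d, hd, x₀, hx₀, hxd⟩ := h.exists_base _ x rfl
  have hxinv : x⁻¹ = x := inv_eq_of_mul_eq_one_left hx2
  have hx₀d : x₀ = d⁻¹ * x := by rw [hxd]; group
  have hx₀inv : x₀⁻¹ = x * d := by rw [hx₀d, mul_inv_rev, hxinv, inv_inv]
  have hx₀P : ∀ v ∈ P, R.act x₀⁻¹ v ∈ P := by
    intro v hv
    rw [hx₀inv, R.act_mul]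
    exact hxP _ (h.D_act_mem hd hv)
  -- `x₀` is an involution
  have hsq : x₀ * x₀ = 1 := by
    have h1 : x₀ * x₀ ∈ R.D a b := by
      have h2 : x₀ * x₀ = d⁻¹ * (x * d⁻¹ * x⁻¹) := by
        rw [hx₀d]
        calc d⁻¹ * x * (d⁻¹ * x) = d⁻¹ * (x * d⁻¹ * x) := by group
          _ = d⁻¹ * (x * d⁻¹ * x⁻¹) := by rw [hxinv]
      rw [h2]
      exact mul_mem (inv_mem hd) (h.conj_mem_D hxP (inv_mem hd))
    apply h.eq_one (x₀ := 1) inv_one_eq h1
    rw [mul_one, Set.eq_empty_iff_forall_notMem]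
    intro δ hδ
    have h2 := hδ.2
    rw [mul_inv_rev, R.act_mul] at h2
    have h3 := act_inv_pos hx₀ hx₀P (act_inv_pos hx₀ hx₀P hδ.1)
    linarith [h3.2.2]
  have hinv' : x₀⁻¹ = x₀ := inv_eq_of_mul_eq_one_left hsq
  have hx₀pos : ∀ δ ∈ R.pos P, R.act x₀ δ ∈ R.pos P := by
    intro δ hδ
    have := act_inv_pos hx₀ hx₀P hδ
    rwa [hinv'] at this
  have hx₀2 : ∀ v : V, R.act x₀ (R.act x₀ v) = v := by
    intro v
    rw [← R.act_mul, hsq, R.act_one]
  have hletter : ∀ c, (c = a ∨ c = b) → (R.act x₀ c = a ∨ R.act x₀ c = b) := by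
    intro c hc
    have hcp := h.lpos hc
    apply h.simple_mem (hx₀pos c hcp)
    intro δ hδ hneg
    rw [R.refl_act hcp.1, R.act_mul, R.act_mul, hinv'] at hneg
    by_contra hcon
    have h1 : R.act x₀ δ ≠ c := fun h2 => hcon (by rw [← h2, hx₀2])
    have h2 := hx₀pos _ (h.lperm hc (hx₀pos δ hδ) h1)
    linarith [h2.2.2]
  have hconjr : ∀ c ∈ R.Φ, x₀ * R.refl c = R.refl (R.act x₀ c) * x₀ := by
    intro c hc
    rw [R.refl_act hc]; group
  have hθ : (x₀ * R.refl a = R.refl a * x₀ ∧ x₀ * R.refl b = R.refl b * x₀) ∨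
      (x₀ * R.refl a = R.refl b * x₀ ∧ x₀ * R.refl b = R.refl a * x₀) := by
    rw [hconjr a h.ha.1, hconjr b h.hb.1]
    rcases hletter a (Or.inl rfl) with h1 | h1
    · left
      rcases hletter b (Or.inr rfl) with h2 | h2
      · exfalso
        have h3 := congrArg (R.act x₀) (h1.trans h2.symm)
        rw [hx₀2, hx₀2] at h3
        exact h.hab h3
      · rw [h1, h2]; exact ⟨rfl, rfl⟩
    · right
      rcases hletter b (Or.inr rfl) with h2 | h2
      · rw [h1, h2]; exact ⟨rfl, rfl⟩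
      · exfalso
        have h3 := congrArg (R.act x₀) (h1.trans h2.symm)
        rw [hx₀2, hx₀2] at h3
        exact h.hab h3
  -- normal forms
  set y' := R.refl β * x * R.refl β with hy'
  set d' := R.refl β * (R.refl (R.act x β) * d) with hd'def
  have hd' : d' ∈ R.D a b :=
    mul_mem (h.refl_mem hβ) (mul_mem (h.refl_mem' (R.act_mem _ _ hβ.1) (hxP _ hβ.2.1)) hd)
  have hy'd : y' = d' * x₀ := by
    rw [hy', conj_eq hβ.1, hd'def]
    conv_lhs => rw [hxd]
    rw [← hxd]
    rw [mul_assoc, mul_assoc, ← hxd]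
  have hlevpos : 0 < R.lev P x := by
    rcases Nat.eq_zero_or_pos (R.lev P x) with h1 | h1
    · rw [lev_eq_zero.mp h1] at hax
      exact absurd hax (Set.notMem_empty _)
    · exact h1
  have hay : a ∉ R.inv P y' := by
    intro h1
    apply hne
    have := h.eq_of_descent hx₀ hd' hd (by rw [← hy'd, ← hxd]; exact hlev) (Or.inl rfl)
      (by rw [← hy'd]; exact h1) (by rw [← hxd]; exact hax)
    exact hy'd.trans (this.trans hxd.symm)
  have hby : b ∈ R.inv P y' := by
    obtain ⟨c, hc, hcy⟩ := h.exists_descent (z := y') (by omega)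
    rcases hc with rfl | rfl
    · exact absurd hcy hay
    · exact hcy
  have nf1 := Dih.normal_form hx₀ _ a b h d hd rfl (by rw [← hxd]; exact hax)
  have nf2 := Dih.normal_form hx₀ _ b a h.swap d' (by rw [D_swap]; exact hd') rfl
    (by rw [← hy'd]; exact hby)
  rw [← hxd] at nf1
  rw [← hy'd, hlev] at nf2
  refine key_group (t := R.refl β) (R.refl_mul_self a h.ha.1) (R.refl_mul_self b h.hb.1) hsq hθ
    hlevpos ?_ (h.refl_mem hβ) (R.refl_mul_self β hβ.1) ?_ ?_
  · rw [← nf1]; exact hx2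
  · intro h1
    have h2 := R.act_refl_self hβ.1
    rw [h1, R.act_one] at h2
    have h3 := congrArg R.ht h2
    rw [map_neg] at h3
    linarith [hβ.2.2]
  · rw [← nf1, ← nf2]

theorem Dih.case_three (h : Dih R P a b) {x : G} (hx2 : x * x = 1)
    (hxP : ∀ v ∈ P, R.act x v ∈ P) {β : V} (hβ : β ∈ R.pos P)
    (hlev : R.lev P (R.refl β * x * R.refl β) = R.lev P x)
    (hne : R.refl β * x * R.refl β ≠ x) :
    ∃ k : ℤ, k ≠ 0 ∧ (R.refl a * R.refl b) ^ k = 1 := by
  have hpos : 0 < R.lev P x := by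
    rcases Nat.eq_zero_or_pos (R.lev P x) with h1 | h1
    · exfalso
      have h0 := lev_eq_zero.mp h1
      set d' := R.refl β * (R.refl (R.act x β)) with hd'def
      have hd' : d' ∈ R.D a b :=
        mul_mem (h.refl_mem hβ) (h.refl_mem' (R.act_mem _ _ hβ.1) (hxP _ hβ.2.1))
      have hy'd : R.refl β * x * R.refl β = d' * x := by
        rw [conj_eq hβ.1, hd'def, mul_assoc]
      have h2 := h.eq_one h0 hd' (lev_eq_zero.mp (by rw [← hy'd]; omega))
      rw [hy'd, h2, one_mul] at hne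
      exact hne rfl
    · exact h1
  obtain ⟨c, hc, hcx⟩ := h.exists_descent hpos
  rcases hc with rfl | rfl
  · exact h.case_three_aux hx2 hxP hβ hlev hne hcx
  · obtain ⟨k, hk, h1⟩ := h.swap.case_three_aux hx2 hxP hβ hlev hne hcx
    refine ⟨-k, by omega, ?_⟩
    have h2 : (R.refl a * R.refl c)⁻¹ = R.refl c * R.refl a := by
      rw [mul_inv_rev, R.refl_inv h.ha.1, R.refl_inv h.hb.1]
    rw [zpow_neg, ← inv_zpow, h2, h1]

end RootDatum

end Pool.Agent.Lib.MP_2f4918_al
end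

section

/-!
# Moving a finite plane to standard position
-/

namespace Pool.Agent.Lib.MP_2f4918_al

open Finsupp CoxeterSystem

variable {B W : Type*} [Group W] {M : CoxeterMatrix B} {cs : CoxeterSystem M W}

/-- Generic positive functionals. -/
lemma exists_generic (S : Finset (B →₀ ℝ)) (hS : ∀ v ∈ S, v ≠ 0) :
    ∃ lam : B → ℝ, (∀ b, 0 < lam b) ∧ ∀ v ∈ S, Finsupp.linearCombination ℝ lam v ≠ 0 := by
  classical
  induction S using Finset.induction_on with
  | empty => exact ⟨fun _ => 1, fun _ => one_pos, by simp⟩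
  | insert v S hvS ih =>
    obtain ⟨lam, hpos, hlam⟩ := ih (fun u hu => hS u (Finset.mem_insert_of_mem hu))
    obtain ⟨b, hb⟩ : ∃ b, v b ≠ 0 := by
      by_contra hcon
      push Not at hcon
      exact hS v (Finset.mem_insert_self v S) (Finsupp.ext hcon)
    set L := Finsupp.linearCombination ℝ lam with hL
    obtain ⟨ε, hε⟩ := ((Set.Ioi_infinite (0 : ℝ)).sdiff
      ((insert v S).image (fun u => -(L u) / u b)).finite_toSet).nonempty
    have hε0 : 0 < ε := hε.1
    have hεS : ε ∉ ((insert v S).image (fun u => -(L u) / u b)) := hε.2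
    refine ⟨Function.update lam b (lam b + ε), ?_, ?_⟩
    · intro b'
      by_cases hbb : b' = b
      · subst hbb; simp; linarith [hpos b']
      · simp [hbb, hpos b']
    · have key : ∀ u : B →₀ ℝ,
          Finsupp.linearCombination ℝ (Function.update lam b (lam b + ε)) u = L u + ε * u b := by
        intro u
        have h1 : Finsupp.linearCombination ℝ (Function.update lam b (lam b + ε)) =
            L + ε • Finsupp.lapply b := by
          apply lin_ext
          intro i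
          by_cases hib : i = b
          · subst hib; simp [L, ee]
          · simp [L, ee, hib]
        rw [h1]; simp
      intro u hu
      rw [key]
      by_cases hub : u b = 0
      · rw [hub, mul_zero, add_zero]
        rcases Finset.mem_insert.mp hu with rfl | hu
        · exact absurd hub hb
        · exact hlam u hu
      · intro h0
        apply hεS
        rw [Finset.mem_image]
        refine ⟨u, hu, ?_⟩
        field_simp
        linarith

lemma linComb_nonneg {lam : B → ℝ} (hlam : ∀ b, 0 < lam b) {v : B →₀ ℝ} (hv : Nonneg v) :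
    0 ≤ Finsupp.linearCombination ℝ lam v := by
  rw [Finsupp.linearCombination_apply]
  exact Finset.sum_nonneg (fun b _ => mul_nonneg (hv b) (hlam b).le)

lemma linComb_pos {lam : B → ℝ} (hlam : ∀ b, 0 < lam b) {v : B →₀ ℝ} (hv : Nonneg v)
    (h0 : v ≠ 0) : 0 < Finsupp.linearCombination ℝ lam v := by
  rw [Finsupp.linearCombination_apply]
  apply Finset.sum_pos
  · intro b hb
    exact mul_pos (lt_of_le_of_ne (hv b) (Ne.symm (Finsupp.mem_support_iff.mp hb))) (hlam b)
  · exact Finsupp.support_nonempty_iff.mpr h0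

variable {P : Submodule ℝ (B →₀ ℝ)} {a b : B →₀ ℝ}

open RootDatum

/-- Finite dihedral group. -/
lemma D_finite (h : Dih (datum cs) P a b) {k : ℤ} (hk : k ≠ 0)
    (h1 : ((datum cs).refl a * (datum cs).refl b) ^ k = 1) :
    ((datum cs).D a b : Set (WPlus cs)).Finite := by
  set A := (datum cs).refl a with hAdef
  set Bb := (datum cs).refl b with hBdef
  have hA : A * A = 1 := (datum cs).refl_mul_self a h.ha.1
  have hB : Bb * Bb = 1 := (datum cs).refl_mul_self b h.hb.1
  have hfin : (Subgroup.zpowers (A * Bb) : Set (WPlus cs)).Finite := by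
    apply finite_zpowers.mpr
    exact isOfFinOrder_iff_zpow_eq_one.mpr ⟨k, hk, h1⟩
  apply (hfin.union (hfin.image (fun g => g * A))).subset
  intro d hd
  obtain ⟨i, hi | hi⟩ := dihedral_mem hA hB hd
  · left; exact ⟨i, hi.symm⟩
  · right; exact ⟨(A * Bb) ^ i, ⟨i, rfl⟩, hi.symm⟩

lemma act_sub_mem (h : Dih (datum cs) P a b) {d : WPlus cs} (hd : d ∈ (datum cs).D a b)
    (v : B →₀ ℝ) : actPlus d v - v ∈ P := by
  obtain ⟨l, hl, rfl⟩ := h.exists_word hd
  clear hd
  induction l with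
  | nil =>
    rw [prd_nil, map_one]
    simp
  | cons c l ih =>
    have hcp := h.lpos hl.head
    rw [prd_cons, map_mul, Module.End.mul_apply]
    have h1 := (datum cs).act_refl c hcp.1 (actPlus ((datum cs).prd l) v)
    change actPlus ((datum cs).refl c) (actPlus ((datum cs).prd l) v) = _ at h1
    rw [h1]
    have h2 := P.sub_mem (ih hl.tail)
      (P.smul_mem (2 * (datum cs).form c (actPlus ((datum cs).prd l) v)) hcp.2.1)
    convert h2 using 1
    abel

/-- A functional vanishing exactly on the roots of the plane. -/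
lemma exists_functional (h : Dih (datum cs) P a b)
    (hfin : ((datum cs).D a b : Set (WPlus cs)).Finite) :
    ∃ p : (B →₀ ℝ) →ₗ[ℝ] ℝ, (∀ δ ∈ roots cs, p δ = 0 ↔ δ ∈ P) ∧
      {β | β ∈ roots cs ∧ 0 < hgt β ∧ p β < 0}.Finite := by
  classical
  set D := hfin.toFinset with hD
  have hmemD : ∀ d, d ∈ D ↔ d ∈ (datum cs).D a b := fun d => by simp [hD]
  set A : (B →₀ ℝ) →ₗ[ℝ] (B →₀ ℝ) := ∑ d ∈ D, (actPlus d : Module.End ℝ (B →₀ ℝ)) with hA
  have hAapp : ∀ v, A v = ∑ d ∈ D, actPlus d v := fun v => by rw [hA, LinearMap.sum_apply]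
  have hDcard : (0 : ℝ) < D.card := by
    have : D.Nonempty := ⟨1, (hmemD 1).mpr (one_mem _)⟩
    exact_mod_cast this.card_pos
  have hAinv : ∀ e ∈ (datum cs).D a b, ∀ v, A (actPlus e v) = A v := by
    intro e he v
    rw [hAapp, hAapp]
    apply Finset.sum_bij (fun d _ => d * e)
    · intro d hd
      exact (hmemD _).mpr (mul_mem ((hmemD d).mp hd) he)
    · intro d _ d' _ hdd
      exact mul_right_cancel hdd
    · intro d hd
      exact ⟨d * e⁻¹, (hmemD _).mpr (mul_mem ((hmemD d).mp hd) (inv_mem he)), by simp⟩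
    · intro d _
      rw [map_mul]; rfl
  have hAP : ∀ v, A v = 0 → v ∈ P := by
    intro v hv
    have h1 : A v - (D.card : ℝ) • v ∈ P := by
      have h2 : A v - (D.card : ℝ) • v = ∑ d ∈ D, (actPlus d v - v) := by
        rw [hAapp, Finset.sum_sub_distrib, Finset.sum_const, Nat.cast_smul_eq_nsmul]
      rw [h2]
      exact P.sum_mem (fun d hd => act_sub_mem h ((hmemD d).mp hd) v)
    rw [hv, zero_sub] at h1
    have h3 := P.smul_mem (-((D.card : ℝ)⁻¹)) h1
    rw [smul_neg, neg_smul, neg_neg, smul_smul, inv_mul_cancel₀ hDcard.ne', one_smul] at h3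
    exact h3
  -- the exceptional positive roots
  set E : Set (B →₀ ℝ) := ⋃ d ∈ D, {β | β ∈ roots cs ∧ 0 < hgt β ∧ hgt (actPlus d β) < 0}
    with hE
  have hEfin : E.Finite := by
    rw [hE]
    apply Set.Finite.biUnion D.finite_toSet
    intro d _
    have := (datum cs).finite_inv d⁻¹
    rw [inv_inv] at this
    exact this
  set S : Finset (B →₀ ℝ) := ((hEfin.subset (Set.sep_subset E (fun β => β ∉ P))).image A).toFinset
    with hS
  obtain ⟨lam, hlam, hgen⟩ := exists_generic S (by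
    intro v hv
    rw [hS, Set.Finite.mem_toFinset] at hv
    obtain ⟨β, hβ, rfl⟩ := hv
    intro h0
    exact hβ.2 (hAP β h0))
  set L := Finsupp.linearCombination ℝ lam with hL
  have hpE : ∀ β ∈ roots cs, 0 < hgt β → L (A β) ≤ 0 → β ∈ E := by
    intro β hβ hpos hle
    by_contra hcon
    have h1 : ∀ d ∈ D, 0 < L (actPlus d β) := by
      intro d hd
      have h2 := actPlus_mem_roots d hβ
      have h3 : 0 < hgt (actPlus d β) := by
        rcases lt_trichotomy (hgt (actPlus d β)) 0 with h4 | h4 | h4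
        · exfalso
          apply hcon
          rw [hE]
          simp only [Set.mem_iUnion]
          exact ⟨d, hd, hβ, hpos, h4⟩
        · exact absurd h4 (hgt_ne_zero h2)
        · exact h4
      exact linComb_pos hlam (nonneg_of_hgt_pos h2 h3) (roots_ne_zero h2)
    have h2 : 0 < L (A β) := by
      rw [hAapp, map_sum]
      exact Finset.sum_pos h1 ⟨1, (hmemD 1).mpr (one_mem _)⟩
    linarith
  have hne : ∀ β ∈ roots cs, 0 < hgt β → β ∉ P → L (A β) ≠ 0 := by
    intro β hβ hpos hP h0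
    have h1 := hpE β hβ hpos h0.le
    apply hgen (A β) _ h0
    rw [hS, Set.Finite.mem_toFinset]
    exact ⟨β, ⟨h1, hP⟩, rfl⟩
  refine ⟨L ∘ₗ A, ?_, ?_⟩
  · intro δ hδ
    constructor
    · intro h0
      by_contra hP
      rcases lt_trichotomy (hgt δ) 0 with h1 | h1 | h1
      · apply hne (-δ) (neg_mem_roots hδ) (by rw [map_neg]; linarith)
          (fun h2 => hP (by have := P.neg_mem h2; rwa [neg_neg] at this))
        have h0' : L (A δ) = 0 := h0
        rw [map_neg, map_neg, h0', neg_zero]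
      · exact hgt_ne_zero hδ h1
      · exact hne δ hδ h1 hP h0
    · intro hP
      have h1 : actPlus ((datum cs).refl δ) δ = -δ := (datum cs).act_refl_self hδ
      have h2 := hAinv _ (h.refl_mem' hδ hP) δ
      rw [h1, map_neg] at h2
      have h3 : L (A δ) = -L (A δ) := by
        conv_lhs => rw [← h2, map_neg]
      change L (A δ) = 0
      linarith
  · apply hEfin.subset
    rintro β ⟨h1, h2, h3⟩
    exact hpE β h1 h2 h3.le

/-- Lexicographic positivity. -/
def LexPos (p : (B →₀ ℝ) →ₗ[ℝ] ℝ) (v : B →₀ ℝ) : Prop := 0 < p v ∨ (p v = 0 ∧ 0 < hgt v)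

lemma lexPos_neg {p : (B →₀ ℝ) →ₗ[ℝ] ℝ} {β : B →₀ ℝ} (hβ : β ∈ roots cs)
    (h : ¬ LexPos p β) : LexPos p (-β) := by
  unfold LexPos at *
  rw [map_neg, map_neg]
  push Not at h
  rcases lt_trichotomy (p β) 0 with h1 | h1 | h1
  · left; linarith
  · right
    refine ⟨by rw [h1, neg_zero], ?_⟩
    have h2 := h.2 h1
    have h3 := hgt_ne_zero hβ
    have h4 := lt_of_le_of_ne h2 h3
    linarith
  · linarith [h.1]

lemma not_lexPos_neg {p : (B →₀ ℝ) →ₗ[ℝ] ℝ} {β : B →₀ ℝ} (h : LexPos p β) :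
    ¬ LexPos p (-β) := by
  unfold LexPos at *
  rw [map_neg, map_neg]
  rintro (h1 | h1)
  · rcases h with h2 | h2
    · linarith
    · linarith [h2.1]
  · rcases h with h2 | h2
    · linarith [h1.1]
    · linarith [h1.2, h2.2]

lemma exists_chamber (p : (B →₀ ℝ) →ₗ[ℝ] ℝ) : ∀ n : ℕ, ∀ g : W,
    {β | β ∈ roots cs ∧ 0 < hgt β ∧ ¬ LexPos p (gr cs g⁻¹ β)}.Finite →
    {β | β ∈ roots cs ∧ 0 < hgt β ∧ ¬ LexPos p (gr cs g⁻¹ β)}.ncard = n →
    ∃ g' : W, ∀ i, LexPos p (gr cs g'⁻¹ (ee i)) := by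
  intro n
  induction n using Nat.strong_induction_on with
  | _ n ih =>
  intro g hfin hn
  by_cases hall : ∀ i, LexPos p (gr cs g⁻¹ (ee i))
  · exact ⟨g, hall⟩
  push Not at hall
  obtain ⟨i, hi⟩ := hall
  set E := {β | β ∈ roots cs ∧ 0 < hgt β ∧ ¬ LexPos p (gr cs g⁻¹ β)} with hE
  have hiE : ee i ∈ E := ⟨ee_mem_roots i, by rw [hgt_ee]; norm_num, hi⟩
  have hsub : {β | β ∈ roots cs ∧ 0 < hgt β ∧ ¬ LexPos p (gr cs (cs.simple i * g)⁻¹ β)} ⊆
      gr cs (cs.simple i) '' (E \ {ee i}) := by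
    rintro β ⟨hβ, hpos, hneg⟩
    rw [mul_inv_rev, cs.inv_simple, gr_mul] at hneg
    have hβi : β ≠ ee i := by
      rintro rfl
      apply hneg
      rw [gr_simple_ee, map_neg]
      exact lexPos_neg (gr_mem_roots hβ _) hi
    refine ⟨gr cs (cs.simple i) β, ⟨⟨gr_mem_roots hβ _, ?_, hneg⟩, ?_⟩, ?_⟩
    · rcases lt_trichotomy (hgt (gr cs (cs.simple i) β)) 0 with h | h | h
      · exact absurd (eq_ee_of_neg hβ hpos h) hβi
      · exact absurd h (hgt_ne_zero (gr_mem_roots hβ _))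
      · exact h
    · intro h1
      have h2 : gr cs (cs.simple i) β = ee i := h1
      have h3 := congrArg (gr cs (cs.simple i)) h2
      rw [← gr_mul, cs.simple_mul_simple_self, gr_one, gr_simple_ee] at h3
      rw [h3, map_neg, hgt_ee] at hpos
      linarith
    · rw [← gr_mul, cs.simple_mul_simple_self, gr_one]
  have hfin' := ((hfin.subset Set.sdiff_subset).image (gr cs (cs.simple i))).subset hsub
  have hcard : {β | β ∈ roots cs ∧ 0 < hgt β ∧
      ¬ LexPos p (gr cs (cs.simple i * g)⁻¹ β)}.ncard < n := by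
    have h1 := Set.ncard_le_ncard hsub ((hfin.subset Set.sdiff_subset).image _)
    have h2 := Set.ncard_image_le (f := gr cs (cs.simple i)) (hfin.subset
      (Set.sdiff_subset (t := {ee i})))
    have h3 := Set.ncard_sdiff_singleton_add_one hiE hfin
    omega
  exact ih _ hcard (cs.simple i * g) hfin' rfl

/-- Finite planes can be moved to standard position. -/
theorem exists_standard (h : Dih (datum cs) P a b)
    (hfin : ((datum cs).D a b : Set (WPlus cs)).Finite) :
    ∃ g : W, (∀ δ ∈ (datum cs).pos P, 0 < hgt (gr cs g δ)) ∧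
      ∀ c, (c = a ∨ c = b) → ∃ i, gr cs g c = ee i := by
  obtain ⟨p, hp, hpfin⟩ := exists_functional h hfin
  have hE1 : {β | β ∈ roots cs ∧ 0 < hgt β ∧ ¬ LexPos p (gr cs (1 : W)⁻¹ β)}.Finite := by
    apply hpfin.subset
    rintro β ⟨h1, h2, h3⟩
    rw [inv_one, gr_one] at h3
    unfold LexPos at h3
    push Not at h3
    refine ⟨h1, h2, lt_of_le_of_ne h3.1 (fun h4 => ?_)⟩
    linarith [h3.2 h4]
  obtain ⟨g, hg⟩ := exists_chamber p _ 1 hE1 rfl
  -- expansion of nonnegative vectors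
  have hexp : ∀ (f : (B →₀ ℝ) →ₗ[ℝ] ℝ) (v : B →₀ ℝ), f v = ∑ i ∈ v.support, v i * f (ee i) := by
    intro f v
    have h1 : f = Finsupp.linearCombination ℝ (fun i => f (ee i)) := by
      apply lin_ext
      intro i
      simp [ee]
    conv_lhs => rw [h1, Finsupp.linearCombination_apply]
    rfl
  have hgp : ∀ i, 0 ≤ p (gr cs g⁻¹ (ee i)) := by
    intro i
    rcases hg i with h1 | h1
    · exact h1.le
    · exact h1.1.ge
  have hterm : ∀ v : B →₀ ℝ, Nonneg v → p (gr cs g⁻¹ v) = 0 →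
      ∀ i ∈ v.support, p (gr cs g⁻¹ (ee i)) = 0 ∧ 0 < hgt (gr cs g⁻¹ (ee i)) := by
    intro v hv h0 i hi
    have h1 := hexp (p ∘ₗ gr cs g⁻¹) v
    rw [LinearMap.comp_apply, h0] at h1
    have h2 := (Finset.sum_eq_zero_iff_of_nonneg (fun j _ =>
      mul_nonneg (hv j) (hgp j))).mp h1.symm i hi
    have h3 : v i ≠ 0 := Finsupp.mem_support_iff.mp hi
    have h4 : p (gr cs g⁻¹ (ee i)) = 0 := by
      rcases mul_eq_zero.mp h2 with h5 | h5
      · exact absurd h5 h3
      · exact h5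
    refine ⟨h4, ?_⟩
    rcases hg i with h5 | h5
    · linarith
    · exact h5.2
  have hpos : ∀ δ ∈ (datum cs).pos P, 0 < hgt (gr cs g δ) := by
    intro δ hδ
    have hδr : δ ∈ roots cs := hδ.1
    rcases lt_trichotomy (hgt (gr cs g δ)) 0 with h1 | h1 | h1
    · exfalso
      have h2 : -(gr cs g δ) ∈ roots cs := neg_mem_roots (gr_mem_roots hδr g)
      have h3 := nonneg_of_hgt_pos h2 (by rw [map_neg]; linarith)
      have h4 : gr cs g⁻¹ (-(gr cs g δ)) = -δ := by rw [map_neg, gr_inv_gr]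
      have h5 : p (gr cs g⁻¹ (-(gr cs g δ))) = 0 := by
        rw [h4, map_neg, (hp δ hδr).mpr hδ.2.1, neg_zero]
      have h6 := hterm _ h3 h5
      have h7 := hexp (hgt ∘ₗ gr cs g⁻¹) (-(gr cs g δ))
      rw [LinearMap.comp_apply, h4, map_neg] at h7
      have h8 : 0 ≤ ∑ i ∈ (-(gr cs g δ)).support,
          (-(gr cs g δ)) i * (hgt ∘ₗ gr cs g⁻¹) (ee i) :=
        Finset.sum_nonneg (fun i hi => mul_nonneg (h3 i) (h6 i hi).2.le)
      have h9 : 0 < hgt δ := hδ.2.2
      linarith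
    · exact absurd h1 (hgt_ne_zero (gr_mem_roots hδr g))
    · exact h1
  refine ⟨g, hpos, ?_⟩
  intro c hc
  have hcp := h.lpos hc
  have hcr : c ∈ roots cs := hcp.1
  have h1 := nonneg_of_hgt_pos (gr_mem_roots hcr g) (hpos c hcp)
  have h2 : p (gr cs g⁻¹ (gr cs g c)) = 0 := by
    rw [gr_inv_gr]; exact (hp c hcr).mpr hcp.2.1
  have h3 := hterm _ h1 h2
  have h4 := hexp ((hgt ∘ₗ actPlus ((datum cs).refl c)) ∘ₗ gr cs g⁻¹) (gr cs g c)
  rw [LinearMap.comp_apply, gr_inv_gr, LinearMap.comp_apply] at h4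
  have h5 : actPlus ((datum cs).refl c) c = -c := (datum cs).act_refl_self hcp.1
  rw [h5, map_neg] at h4
  have h6 : 0 < hgt c := hcp.2.2
  obtain ⟨i, hi, hneg⟩ : ∃ i ∈ (gr cs g c).support,
      hgt (actPlus ((datum cs).refl c) (gr cs g⁻¹ (ee i))) < 0 := by
    by_contra hcon
    push Not at hcon
    have h7 : 0 ≤ ∑ i ∈ (gr cs g c).support,
        (gr cs g c) i * ((hgt ∘ₗ actPlus ((datum cs).refl c)) ∘ₗ gr cs g⁻¹) (ee i) :=
      Finset.sum_nonneg (fun i hi => mul_nonneg (h1 i) (hcon i hi))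
    linarith
  refine ⟨i, ?_⟩
  have h7 := gr_mem_roots (cs := cs) (ee_mem_roots i) g⁻¹
  have h8 := h.lsimple hc (δ := gr cs g⁻¹ (ee i))
    ⟨h7, (hp _ h7).mp (h3 i hi).1, (h3 i hi).2⟩ hneg
  rw [← h8, gr_gr_inv]

end Pool.Agent.Lib.MP_2f4918_al
end
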