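import Pool.Agent.Lib.MP_2f4918_al.Abs

/-!
# The positive roots of a plane and their extreme elements
-/

namespace Pool.Agent.Lib.MP_2f4918_al

namespace RootDatum

variable {G V : Type*} [Group G] [AddCommGroup V] [Module ℝ V] (R : RootDatum G V)

/-- The positive roots lying in a subspace. -/
def pos (P : Submodule ℝ V) : Set V := {δ | δ ∈ R.Φ ∧ δ ∈ P ∧ 0 < R.ht δ}

/-- The inversions of `g` lying in a subspace. -/
def inv (P : Submodule ℝ V) (g : G) : Set V := {δ | δ ∈ R.pos P ∧ R.ht (R.act g⁻¹ δ) < 0}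

/-- The level of `g`. -/
noncomputable def lev (P : Submodule ℝ V) (g : G) : ℕ := (R.inv P g).ncard

variable {R} {P : Submodule ℝ V}

lemma inv_finite (g : G) : (R.inv P g).Finite :=
  (R.finite_inv g).subset (fun _ h => ⟨h.1.1, h.1.2.2, h.2⟩)

lemma act_refl_mem {β v : V} (hβ : β ∈ R.Φ) (hβP : β ∈ P) (hv : v ∈ P) :
    R.act (R.refl β) v ∈ P := by
  rw [R.act_refl β hβ]
  exact P.sub_mem hv (P.smul_mem _ hβP)

lemma pos_of_ht_pos {c δ : V} (hc : c ∈ R.pos P) (hδ : δ ∈ R.pos P)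
    (h : 0 < R.ht (R.act (R.refl c) δ)) : R.act (R.refl c) δ ∈ R.pos P :=
  ⟨R.act_mem _ _ hδ.1, act_refl_mem hc.1 hc.2.1 hδ.2.1, h⟩

/-- `μ` is a second coordinate on `P`. -/
def Good (R : RootDatum G V) (P : Submodule ℝ V) (μ : V →ₗ[ℝ] ℝ) : Prop :=
  (∀ v ∈ P, R.ht v = 0 → μ v = 0 → v = 0) ∧
    ∀ φ : V →ₗ[ℝ] ℝ, ∃ s t : ℝ, ∀ v ∈ P, φ v = s * R.ht v + t * μ v

lemma Good.neg {μ : V →ₗ[ℝ] ℝ} (h : Good R P μ) : Good R P (-μ) := by
  refine ⟨fun v hv h1 h2 => h.1 v hv h1 (by simpa using h2), fun φ => ?_⟩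
  obtain ⟨s, t, hst⟩ := h.2 φ
  exact ⟨s, -t, fun v hv => by rw [hst v hv]; simp⟩

/-- Existence of a second coordinate. -/
lemma exists_good {β γ : V} (hβ : β ∈ R.Φ) (hγ : γ ∈ R.Φ) (hβp : 0 < R.ht β) (hγp : 0 < R.ht γ)
    (hne : β ≠ γ) : ∃ μ : V →ₗ[ℝ] ℝ, Good R (Submodule.span ℝ {β, γ}) μ := by
  set w : V := γ - (R.ht γ / R.ht β) • β with hw
  have hw0 : w ≠ 0 := by
    intro h0
    have h1 : γ = (R.ht γ / R.ht β) • β := by rwa [hw, sub_eq_zero] at h0
    set c := R.ht γ / R.ht β with hc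
    have hcp : 0 < c := div_pos hγp hβp
    have h2 := R.form_self γ hγ
    rw [h1] at h2
    simp only [map_smul, LinearMap.smul_apply, smul_eq_mul, R.form_self β hβ, mul_one] at h2
    have h3 : c = 1 := by nlinarith
    rw [h3, one_smul] at h1
    exact hne h1.symm
  obtain ⟨μ, hμ⟩ : ∃ μ : V →ₗ[ℝ] ℝ, μ w ≠ 0 := by
    by_contra hcon
    push Not at hcon
    exact hw0 ((Module.forall_dual_apply_eq_zero_iff ℝ w).mp hcon)
  have hβ0 : R.ht β ≠ 0 := hβp.ne'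
  have hhw : R.ht w = 0 := by
    rw [hw, map_sub, map_smul, smul_eq_mul, div_mul_cancel₀ _ hβ0, sub_self]
  have hγw : γ = w + (R.ht γ / R.ht β) • β := by rw [hw]; abel
  have hdec : ∀ v ∈ Submodule.span ℝ {β, γ}, ∃ p q : ℝ, v = p • β + q • w := by
    intro v hv
    obtain ⟨x, y, rfl⟩ := Submodule.mem_span_pair.mp hv
    refine ⟨x + y * (R.ht γ / R.ht β), y, ?_⟩
    conv_lhs => rw [hγw]
    module
  refine ⟨μ, ?_, ?_⟩
  · intro v hv h1 h2
    obtain ⟨p, q, rfl⟩ := hdec v hv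
    have h3 : p = 0 := by
      have : p * R.ht β = 0 := by simpa [hhw] using h1
      rcases mul_eq_zero.mp this with h | h
      · exact h
      · exact absurd h hβ0
    subst h3
    have h4 : q = 0 := by
      have : q * μ w = 0 := by simpa using h2
      rcases mul_eq_zero.mp this with h | h
      · exact h
      · exact absurd h hμ
    subst h4
    simp
  · intro φ
    refine ⟨(φ β - φ w / μ w * μ β) / R.ht β, φ w / μ w, fun v hv => ?_⟩
    obtain ⟨p, q, rfl⟩ := hdec v hv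
    simp only [map_add, map_smul, smul_eq_mul, hhw]
    field_simp
    ring

/-- `c` has the largest slope. -/
def IsMax (R : RootDatum G V) (P : Submodule ℝ V) (μ : V →ₗ[ℝ] ℝ) (c : V) : Prop :=
  c ∈ R.pos P ∧ ∀ δ ∈ R.pos P, μ δ * R.ht c ≤ μ c * R.ht δ

lemma eq_of_slope_eq {μ : V →ₗ[ℝ] ℝ} (h : Good R P μ) {c δ : V} (hc : c ∈ R.pos P)
    (hδ : δ ∈ R.pos P) (he : μ δ * R.ht c = μ c * R.ht δ) : δ = c := by
  have h0 : R.ht c • δ - R.ht δ • c = 0 := by
    apply h.1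
    · exact P.sub_mem (P.smul_mem _ hδ.2.1) (P.smul_mem _ hc.2.1)
    · simp only [map_sub, map_smul, smul_eq_mul]; ring
    · simp only [map_sub, map_smul, smul_eq_mul]; linarith
  have hcp := hc.2.2
  have hδp := hδ.2.2
  have h1 : δ = (R.ht δ / R.ht c) • c := by
    rw [sub_eq_zero] at h0
    rw [div_eq_inv_mul, mul_smul, ← h0, smul_smul, inv_mul_cancel₀ hcp.ne', one_smul]
  set r := R.ht δ / R.ht c with hr
  have hrp : 0 < r := div_pos hδp hcp
  have h2 := R.form_self δ hδ.1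
  rw [h1] at h2
  simp only [map_smul, LinearMap.smul_apply, smul_eq_mul, R.form_self c hc.1, mul_one] at h2
  have h3 : r = 1 := by nlinarith
  rw [h1, h3, one_smul]

lemma IsMax.unique {μ : V →ₗ[ℝ] ℝ} (h : Good R P μ) {c d : V} (hc : IsMax R P μ c)
    (hd : IsMax R P μ d) : c = d := by
  apply eq_of_slope_eq h hd.1 hc.1
  have h1 := hc.2 d hd.1
  have h2 := hd.2 c hc.1
  linarith

/-- An extreme root is simple in the plane. -/
lemma IsMax.simple {μ : V →ₗ[ℝ] ℝ} (h : Good R P μ) {c : V} (hc : IsMax R P μ c) {δ : V}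
    (hδ : δ ∈ R.pos P) (hneg : R.ht (R.act (R.refl c) δ) < 0) : δ = c := by
  have hcc := hc.1
  have hmem : -(R.act (R.refl c) δ) ∈ R.pos P := by
    refine ⟨R.neg_mem (R.act_mem _ _ hδ.1), P.neg_mem (act_refl_mem hcc.1 hcc.2.1 hδ.2.1), ?_⟩
    rw [map_neg]; linarith
  have h1 := hc.2 δ hδ
  have h2 := hc.2 _ hmem
  rw [R.act_refl c hcc.1] at h2
  simp only [map_sub, map_smul, smul_eq_mul, map_neg] at h2
  apply eq_of_slope_eq h hcc hδ
  nlinarith

lemma exists_max {μ : V →ₗ[ℝ] ℝ} (h : Good R P μ) {g : G} (hg : (R.inv P g).Nonempty) :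
    ∃ c ∈ R.inv P g, IsMax R P μ c ∨ IsMax R P (-μ) c := by
  obtain ⟨s, t, hst⟩ := h.2 (R.ht ∘ₗ R.act g⁻¹)
  have hst' : ∀ δ ∈ R.pos P, R.ht (R.act g⁻¹ δ) = s * R.ht δ + t * μ δ :=
    fun δ hδ => hst δ hδ.2.1
  rcases le_total t 0 with ht | ht
  · obtain ⟨c, hc, hmax⟩ := Set.exists_max_image (R.inv P g) (fun δ => μ δ / R.ht δ)
      (inv_finite g) hg
    refine ⟨c, hc, Or.inl ⟨hc.1, fun δ hδ => ?_⟩⟩
    by_contra hcon
    push Not at hcon
    have hcp := hc.1.2.2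
    have hδp := hδ.2.2
    have hδ' : δ ∈ R.inv P g := by
      refine ⟨hδ, ?_⟩
      rw [hst' δ hδ]
      have h1 := hc.2
      rw [hst' c hc.1] at h1
      have h2 : (s * R.ht δ + t * μ δ) * R.ht c < 0 := by
        have h3 : (s * R.ht c + t * μ c) * R.ht δ < 0 := mul_neg_of_neg_of_pos h1 hδp
        have h4 : t * (μ δ * R.ht c) ≤ t * (μ c * R.ht δ) :=
          mul_le_mul_of_nonpos_left hcon.le ht
        nlinarith
      exact (neg_iff_pos_of_mul_neg h2).mpr hcp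
    have h5 := hmax δ hδ'
    rw [div_le_div_iff₀ hδp hcp] at h5
    linarith
  · obtain ⟨c, hc, hmax⟩ := Set.exists_max_image (R.inv P g) (fun δ => -(μ δ / R.ht δ))
      (inv_finite g) hg
    refine ⟨c, hc, Or.inr ⟨hc.1, fun δ hδ => ?_⟩⟩
    by_contra hcon
    push Not at hcon
    simp only [LinearMap.neg_apply] at hcon
    have hcp := hc.1.2.2
    have hδp := hδ.2.2
    have hδ' : δ ∈ R.inv P g := by
      refine ⟨hδ, ?_⟩
      rw [hst' δ hδ]
      have h1 := hc.2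
      rw [hst' c hc.1] at h1
      have h2 : (s * R.ht δ + t * μ δ) * R.ht c < 0 := by
        have h3 : (s * R.ht c + t * μ c) * R.ht δ < 0 := mul_neg_of_neg_of_pos h1 hδp
        have h4 : t * (μ δ * R.ht c) ≤ t * (μ c * R.ht δ) :=
          mul_le_mul_of_nonneg_left (by linarith) ht
        nlinarith
      exact (neg_iff_pos_of_mul_neg h2).mpr hcp
    have h5 := hmax δ hδ'
    simp only [neg_le_neg_iff] at h5
    rw [div_le_div_iff₀ hcp hδp] at h5
    linarith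

/-- If a maximum exists and there is another positive root, then a minimum exists. -/
lemma exists_min_of_max {μ : V →ₗ[ℝ] ℝ} (h : Good R P μ) {c : V} (hc : IsMax R P μ c) {δ : V}
    (hδ : δ ∈ R.pos P) (hne : δ ≠ c) : ∃ b, IsMax R P (-μ) b ∧ b ≠ c := by
  have key : ∀ g : G, (R.inv P g).Nonempty → c ∉ R.inv P g → ∃ b, IsMax R P (-μ) b ∧ b ≠ c := by
    intro g hg hcg
    obtain ⟨b, hb, h1 | h1⟩ := exists_max h hg
    · exact absurd (h1.unique h hc ▸ hb) hcg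
    · exact ⟨b, h1, fun h2 => hcg (h2 ▸ hb)⟩
  by_cases hcδ : c ∈ R.inv P (R.refl δ)
  · apply key (R.refl c * R.refl δ)
    · have h1 : R.act (R.refl c) δ ∈ R.pos P := by
        apply pos_of_ht_pos hc.1 hδ
        rcases lt_trichotomy (R.ht (R.act (R.refl c) δ)) 0 with h2 | h2 | h2
        · exact absurd (hc.simple h hδ h2) hne
        · exact absurd h2 (R.ht_ne _ (R.act_mem _ _ hδ.1))
        · exact h2
      refine ⟨R.act (R.refl c) δ, h1, ?_⟩
      rw [R.act_refl_mul_inv hc.1.1, ← R.act_mul (R.refl c), R.refl_mul_self c hc.1.1, R.act_one,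
        R.refl_inv hδ.1, R.act_refl_self hδ.1, map_neg]
      linarith [hδ.2.2]
    · intro h1
      have h2 := h1.2
      rw [R.act_refl_mul_inv hc.1.1, R.act_refl_self hc.1.1, map_neg, map_neg] at h2
      have h3 := hcδ.2
      linarith
  · apply key (R.refl δ) _ hcδ
    refine ⟨δ, hδ, ?_⟩
    rw [R.refl_inv hδ.1, R.act_refl_self hδ.1, map_neg]
    linarith [hδ.2.2]

/-- The two extreme roots of a plane. -/
structure Dih (R : RootDatum G V) (P : Submodule ℝ V) (a b : V) : Prop where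
  ha : a ∈ R.pos P
  hb : b ∈ R.pos P
  hab : a ≠ b
  sa : ∀ δ ∈ R.pos P, R.ht (R.act (R.refl a) δ) < 0 → δ = a
  sb : ∀ δ ∈ R.pos P, R.ht (R.act (R.refl b) δ) < 0 → δ = b
  desc : ∀ g, (R.inv P g).Nonempty → a ∈ R.inv P g ∨ b ∈ R.inv P g

lemma Dih.swap {a b : V} (h : Dih R P a b) : Dih R P b a :=
  ⟨h.hb, h.ha, h.hab.symm, h.sb, h.sa, fun g hg => (h.desc g hg).symm⟩

lemma dih_of_max {μ : V →ₗ[ℝ] ℝ} (h : Good R P μ) {a b : V} (ha : IsMax R P μ a)
    (hb : IsMax R P (-μ) b) (hne : b ≠ a) : Dih R P a b where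
  ha := ha.1
  hb := hb.1
  hab := hne.symm
  sa := fun _ hδ h1 => ha.simple h hδ h1
  sb := fun _ hδ h1 => hb.simple h.neg hδ h1
  desc := by
    intro g hg
    obtain ⟨c, hc, h1 | h1⟩ := exists_max h hg
    · exact Or.inl (h1.unique h ha ▸ hc)
    · exact Or.inr (h1.unique h.neg hb ▸ hc)

lemma exists_dih {β γ : V} (hβ : β ∈ R.Φ) (hγ : γ ∈ R.Φ) (hβp : 0 < R.ht β) (hγp : 0 < R.ht γ)
    (hne : β ≠ γ) : ∃ a b, Dih R (Submodule.span ℝ {β, γ}) a b := by
  obtain ⟨μ, h⟩ := exists_good hβ hγ hβp hγp hne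
  set P := Submodule.span ℝ {β, γ} with hP
  have hβ' : β ∈ R.pos P := ⟨hβ, Submodule.subset_span (by simp), hβp⟩
  have hγ' : γ ∈ R.pos P := ⟨hγ, Submodule.subset_span (by simp), hγp⟩
  have hother : ∀ c : V, ∃ δ ∈ R.pos P, δ ≠ c := by
    intro c
    by_cases hc : β = c
    · exact ⟨γ, hγ', fun h1 => hne (hc.trans h1.symm)⟩
    · exact ⟨β, hβ', hc⟩
  have hinv : (R.inv P (R.refl β)).Nonempty := by
    refine ⟨β, hβ', ?_⟩
    rw [R.refl_inv hβ, R.act_refl_self hβ, map_neg]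
    linarith
  obtain ⟨c, -, h1 | h1⟩ := exists_max h hinv
  · obtain ⟨δ, hδ, hδc⟩ := hother c
    obtain ⟨b, hb, hbc⟩ := exists_min_of_max h h1 hδ hδc
    exact ⟨c, b, dih_of_max h h1 hb hbc⟩
  · obtain ⟨δ, hδ, hδc⟩ := hother c
    obtain ⟨b, hb, hbc⟩ := exists_min_of_max h.neg h1 hδ hδc
    exact ⟨c, b, dih_of_max h.neg h1 hb hbc⟩

end RootDatum

end Pool.Agent.Lib.MP_2f4918_al
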