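import Pool.Agent.Lib.MP_2f4918_al.Geo

/-!
# Positivity of roots
-/

namespace Pool.Agent.Lib.MP_2f4918_al

open Finsupp CoxeterSystem

variable {B W : Type*} [Group W] {M : CoxeterMatrix B} (cs : CoxeterSystem M W)

/-- The geometric representation. -/
noncomputable def gr : W →* Module.End ℝ (B →₀ ℝ) := cs.lift ⟨sig M, liftable M⟩

lemma gr_simple (i : B) : gr cs (cs.simple i) = sig M i := cs.lift_apply_simple (liftable M) i

lemma gr_mul (w w' : W) (v : B →₀ ℝ) : gr cs (w * w') v = gr cs w (gr cs w' v) := by
  rw [map_mul]; rfl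

lemma gr_one (v : B →₀ ℝ) : gr cs 1 v = v := by rw [map_one]; rfl

lemma gr_inv_gr (w : W) (v : B →₀ ℝ) : gr cs w⁻¹ (gr cs w v) = v := by
  rw [← gr_mul, inv_mul_cancel, gr_one]

lemma gr_gr_inv (w : W) (v : B →₀ ℝ) : gr cs w (gr cs w⁻¹ v) = v := by
  rw [← gr_mul, mul_inv_cancel, gr_one]

lemma gr_simple_ee (i : B) : gr cs (cs.simple i) (ee i) = -ee i := by
  rw [gr_simple, sig_apply, gform_ee, kk_self]; module

lemma gform_gr (w : W) (u v : B →₀ ℝ) : gform M (gr cs w u) (gr cs w v) = gform M u v := by
  induction w using cs.simple_induction_left generalizing u v with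
  | one => rw [gr_one, gr_one]
  | mul_simple_left w i ih =>
    rw [gr_mul, gr_mul, gr_simple, ← ih u v]
    simp only [sig_apply, map_sub, map_smul, LinearMap.sub_apply, LinearMap.smul_apply,
      smul_eq_mul, gform_ee, kk_self]
    rw [gform_symm M (gr cs w u) (ee i)]
    ring

/-- The action of alternating words on a basis vector. -/
lemma gr_alternatingWord (i j : B) (k : ℕ) :
    gr cs (cs.wordProd (alternatingWord i j k)) (ee i) =
      (if Even k then qq (Real.cos (Real.pi / M i j)) (k + 1)
        else qq (Real.cos (Real.pi / M i j)) k) • ee i +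
      (if Even k then qq (Real.cos (Real.pi / M i j)) k
        else qq (Real.cos (Real.pi / M i j)) (k + 1)) • ee j := by
  set c := Real.cos (Real.pi / M i j) with hc
  have hkij : kk M i j = -c := rfl
  have hkji : kk M j i = -c := by rw [kk_symm]; rfl
  induction k with
  | zero => simp [alternatingWord, qq_zero, qq_one]
  | succ k ih =>
    rw [alternatingWord_succ', wordProd_cons, gr_mul, ih, gr_simple]
    have hq : qq c (k + 1 + 1) = 2 * c * qq c (k + 1) - qq c k := rfl
    by_cases hk : Even k
    · have hk' : ¬ Even (k + 1) := by simp [hk, parity_simps]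
      simp only [hk, hk', if_true, if_false, sig_apply, map_add, map_smul, gform_ee,
        kk_self, hkji, hq]
      module
    · have hk' : Even (k + 1) := by simp [hk, parity_simps]
      simp only [hk, hk', if_true, if_false, sig_apply, map_add, map_smul, gform_ee,
        kk_self, hkij, hq]
      module

/-- Splitting off the end of an alternating word. -/
lemma alternatingWord_split (i j : B) (m r : ℕ) :
    ∃ u : W, cs.length u ≤ r ∧
      cs.wordProd (alternatingWord i j (m + r)) = u * cs.wordProd (alternatingWord i j m) := by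
  induction r with
  | zero => exact ⟨1, by simp, by simp⟩
  | succ r ih =>
    obtain ⟨u, hu, h1⟩ := ih
    refine ⟨cs.simple (if Even (m + r) then j else i) * u, ?_, ?_⟩
    · have := cs.length_mul_le (cs.simple (if Even (m + r) then j else i)) u
      rw [cs.length_simple] at this
      omega
    · rw [show m + (r + 1) = (m + r) + 1 by ring, alternatingWord_succ', wordProd_cons, h1,
        mul_assoc]

/-- Coordinatewise nonnegativity. -/
def Nonneg (v : B →₀ ℝ) : Prop := ∀ b, 0 ≤ v b

lemma Nonneg.add {v w : B →₀ ℝ} (hv : Nonneg v) (hw : Nonneg w) : Nonneg (v + w) :=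
  fun b => by rw [Finsupp.add_apply]; exact add_nonneg (hv b) (hw b)

lemma Nonneg.smul {v : B →₀ ℝ} (hv : Nonneg v) {c : ℝ} (hc : 0 ≤ c) : Nonneg (c • v) :=
  fun b => by rw [Finsupp.smul_apply]; exact mul_nonneg hc (hv b)

lemma nonneg_ee (i : B) : Nonneg (ee i) := fun b => by
  classical
  rw [ee, Finsupp.single_apply]
  split_ifs <;> norm_num

theorem nonneg_of_lt : ∀ n : ℕ, ∀ w : W, cs.length w = n → ∀ i : B,
    cs.length w < cs.length (w * cs.simple i) → Nonneg (gr cs w (ee i)) := by
  classical
  intro n
  induction n using Nat.strong_induction_on with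
  | _ n ih =>
  intro w hn i hi
  by_cases hw1 : w = 1
  · subst hw1; rw [gr_one]; exact nonneg_ee i
  obtain ⟨j, hj⟩ := cs.exists_rightDescent_of_ne_one hw1
  have hj' : cs.length (w * cs.simple j) < cs.length w := hj
  have hij : i ≠ j := by rintro rfl; omega
  have hex : ∃ n, ∃ v k, cs.length v = n ∧ w = v * cs.wordProd (alternatingWord i j k) ∧
      cs.length w = cs.length v + k := by
    refine ⟨_, w * cs.simple j, 1, rfl, ?_, ?_⟩
    · simp [alternatingWord]
    · rcases cs.length_mul_simple w j with h | h <;> omega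
  obtain ⟨v, k, hv, hwv, hlen⟩ := Nat.find_spec hex
  have hmin : ∀ v' k', w = v' * cs.wordProd (alternatingWord i j k') →
      cs.length w = cs.length v' + k' → cs.length v ≤ cs.length v' := by
    intro v' k' h1 h2
    rw [hv]
    exact Nat.find_min' hex ⟨v', k', rfl, h1, h2⟩
  have hk1 : 1 ≤ k := by
    have := hmin (w * cs.simple j) 1 (by simp [alternatingWord])
      (by rcases cs.length_mul_simple w j with h | h <;> omega)
    omega
  -- extending the word
  have hA : cs.length v < cs.length (v * cs.simple (if Even k then j else i)) := by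
    rcases cs.length_mul_simple v (if Even k then j else i) with h | h
    · omega
    · exfalso
      have := hmin (v * cs.simple (if Even k then j else i)) (k + 1)
        (by rw [alternatingWord_succ', wordProd_cons, mul_assoc,
              cs.simple_mul_simple_cancel_left, hwv]) (by omega)
      omega
  have hBB : cs.length v < cs.length (v * cs.simple (if Even (k - 1) then j else i)) := by
    obtain ⟨k', rfl⟩ : ∃ k', k = k' + 1 := ⟨k - 1, by omega⟩
    simp only [Nat.add_sub_cancel]
    have h1 : w = (v * cs.simple (if Even k' then j else i)) *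
        cs.wordProd (alternatingWord i j k') := by
      rw [hwv, alternatingWord_succ', wordProd_cons, mul_assoc]
    have h2 := cs.length_mul_le (v * cs.simple (if Even k' then j else i))
      (cs.wordProd (alternatingWord i j k'))
    have h3 := cs.length_wordProd_le (alternatingWord i j k')
    rw [length_alternatingWord] at h3
    rw [← h1] at h2
    omega
  have hvi : cs.length v < cs.length (v * cs.simple i) ∧
      cs.length v < cs.length (v * cs.simple j) := by
    by_cases hk : Even k
    · have hk' : ¬ Even (k - 1) := by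
        intro h
        have : Even (k - 1 + 1) := by rwa [Nat.sub_add_cancel hk1]
        exact absurd h (by simpa [parity_simps] using this)
      simp only [hk, hk', if_true, if_false] at hA hBB
      exact ⟨hBB, hA⟩
    · have hk' : Even (k - 1) := by
        by_contra h
        apply hk
        have : Even (k - 1 + 1) := by simpa [parity_simps] using h
        rwa [Nat.sub_add_cancel hk1] at this
      simp only [hk, hk', if_true, if_false] at hA hBB
      exact ⟨hA, hBB⟩
  have hvn : cs.length v < n := by omega
  have hi1 := ih _ hvn v rfl i hvi.1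
  have hj1 := ih _ hvn v rfl j hvi.2
  -- the length of the word is smaller than `M i j`
  have hkm : M i j = 0 ∨ k + 1 ≤ M i j := by
    by_contra hcon
    push Not at hcon
    obtain ⟨hm0, hmk⟩ := hcon
    obtain ⟨r, hr⟩ : ∃ r, k = M i j + r := ⟨k - M i j, by omega⟩
    obtain ⟨u, hu, h1⟩ := alternatingWord_split cs i j (M i j) r
    obtain ⟨m', hm'⟩ : ∃ m', M i j = m' + 1 := ⟨M i j - 1, by omega⟩
    have h2 : cs.wordProd (alternatingWord i j (M i j)) =
        cs.wordProd (alternatingWord j i (M i j)) := by
      have := cs.wordProd_braidWord_eq i j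
      rwa [braidWord, braidWord, M.symmetric j i] at this
    have h3 : w * cs.simple i = v * u * cs.wordProd (alternatingWord i j m') := by
      rw [hwv, hr, h1, h2, hm', alternatingWord_succ, wordProd_concat]
      rw [mul_assoc, mul_assoc, mul_assoc, cs.simple_mul_simple_self, mul_one, mul_assoc]
    have h4 := cs.length_mul_le (v * u) (cs.wordProd (alternatingWord i j m'))
    have h5 := cs.length_mul_le v u
    have h6 := cs.length_wordProd_le (alternatingWord i j m')
    rw [length_alternatingWord] at h6
    rw [← h3] at h4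
    omega
  rw [hwv, gr_mul, gr_alternatingWord, map_add, map_smul, map_smul]
  have hm1 := M.off_diagonal i j hij
  have hq1 : 0 ≤ qq (Real.cos (Real.pi / M i j)) k := qq_nonneg hm1 (by omega)
  have hq2 : 0 ≤ qq (Real.cos (Real.pi / M i j)) (k + 1) := qq_nonneg hm1 (by omega)
  apply Nonneg.add
  · apply hi1.smul
    split_ifs <;> assumption
  · apply hj1.smul
    split_ifs <;> assumption

lemma nonneg_iff (w : W) (i : B) :
    (cs.length w < cs.length (w * cs.simple i) → Nonneg (gr cs w (ee i))) ∧
    (cs.length (w * cs.simple i) < cs.length w → Nonneg (-(gr cs w (ee i)))) := by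
  refine ⟨fun h => nonneg_of_lt cs _ w rfl i h, fun h => ?_⟩
  have h1 := nonneg_of_lt cs _ (w * cs.simple i) rfl i (by
    rw [cs.simple_mul_simple_cancel_right]; exact h)
  rw [gr_mul, gr_simple_ee, map_neg] at h1
  exact h1

lemma nonneg_or (w : W) (i : B) :
    Nonneg (gr cs w (ee i)) ∨ Nonneg (-(gr cs w (ee i))) := by
  rcases lt_or_gt_of_ne (cs.length_mul_simple_ne w i) with h | h
  · exact Or.inr ((nonneg_iff cs w i).2 h)
  · exact Or.inl ((nonneg_iff cs w i).1 h)

lemma gform_root (w : W) (i : B) : gform M (gr cs w (ee i)) (gr cs w (ee i)) = 1 := by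
  rw [gform_gr, gform_ee, kk_self]

/-- The sum of the coordinates. -/
noncomputable def hgt : (B →₀ ℝ) →ₗ[ℝ] ℝ := Finsupp.linearCombination ℝ (fun _ => (1 : ℝ))

lemma hgt_ee (i : B) : hgt (ee i) = 1 := by simp [hgt, ee]

lemma hgt_eq (v : B →₀ ℝ) : hgt v = v.sum (fun _ c => c) := by
  simp [hgt, Finsupp.linearCombination_apply]

lemma hgt_nonneg {v : B →₀ ℝ} (hv : Nonneg v) : 0 ≤ hgt v := by
  rw [hgt_eq]
  exact Finset.sum_nonneg (fun b _ => hv b)

lemma eq_zero_of_hgt {v : B →₀ ℝ} (hv : Nonneg v) (h : hgt v = 0) : v = 0 := by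
  rw [hgt_eq] at h
  ext b
  by_cases hb : b ∈ v.support
  · have := (Finset.sum_eq_zero_iff_of_nonneg (fun b _ => hv b)).mp h b hb
    simpa using this
  · simpa using hb

/-- The roots. -/
def roots : Set (B →₀ ℝ) := {β | ∃ w i, β = gr cs w (ee i)}

variable {cs}

lemma roots_ne_zero {β : B →₀ ℝ} (hβ : β ∈ roots cs) : β ≠ 0 := by
  obtain ⟨w, i, rfl⟩ := hβ
  intro h
  have := gform_root cs w i
  rw [h] at this
  simp at this

lemma hgt_ne_zero {β : B →₀ ℝ} (hβ : β ∈ roots cs) : hgt β ≠ 0 := by
  have h0 := roots_ne_zero hβ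
  obtain ⟨w, i, rfl⟩ := hβ
  intro h
  rcases nonneg_or cs w i with h1 | h1
  · exact h0 (eq_zero_of_hgt h1 h)
  · have := eq_zero_of_hgt h1 (by rw [map_neg, h, neg_zero])
    exact h0 (neg_eq_zero.mp this)

lemma nonneg_of_hgt_pos {β : B →₀ ℝ} (hβ : β ∈ roots cs) (h : 0 < hgt β) : Nonneg β := by
  obtain ⟨w, i, rfl⟩ := hβ
  rcases nonneg_or cs w i with h1 | h1
  · exact h1
  · have := hgt_nonneg h1
    rw [map_neg] at this
    linarith

lemma gr_mem_roots {β : B →₀ ℝ} (hβ : β ∈ roots cs) (w : W) : gr cs w β ∈ roots cs := by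
  obtain ⟨w', i, rfl⟩ := hβ
  exact ⟨w * w', i, by rw [gr_mul]⟩

lemma ee_mem_roots (i : B) : ee i ∈ roots cs := ⟨1, i, by rw [gr_one]⟩

lemma gform_self_root {β : B →₀ ℝ} (hβ : β ∈ roots cs) : gform M β β = 1 := by
  obtain ⟨w, i, rfl⟩ := hβ
  exact gform_root cs w i

/-- A simple reflection makes only its own root negative. -/
lemma eq_ee_of_neg {β : B →₀ ℝ} (hβ : β ∈ roots cs) (hpos : 0 < hgt β) {i : B}
    (hneg : hgt (gr cs (cs.simple i) β) < 0) : β = ee i := by
  have h1 := nonneg_of_hgt_pos hβ hpos
  have hβ' : -(gr cs (cs.simple i) β) ∈ roots cs := by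
    obtain ⟨w, j, rfl⟩ := hβ
    refine ⟨cs.simple i * w * cs.simple j, j, ?_⟩
    rw [gr_mul, gr_mul, gr_simple_ee, map_neg, map_neg]
  have h2 := nonneg_of_hgt_pos hβ' (by rw [map_neg]; linarith)
  rw [gr_simple, sig_apply] at h2
  have h3 : ∀ b, b ≠ i → β b = 0 := by
    intro b hb
    have h4 := h2 b
    have h5 : (ee i : B →₀ ℝ) b = 0 := by simp [ee, Ne.symm hb]
    simp only [Finsupp.neg_apply, Finsupp.sub_apply, Finsupp.smul_apply, h5, smul_zero,
      sub_zero] at h4
    have h6 := h1 b
    linarith
  have h4 : β = β i • ee i := by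
    ext b
    by_cases hb : b = i
    · subst hb; simp [ee]
    · rw [h3 b hb]
      simp [ee, Ne.symm hb]
  have h5 := gform_self_root hβ
  rw [h4] at h5
  simp only [map_smul, LinearMap.smul_apply, smul_eq_mul, gform_ee, kk_self, mul_one] at h5
  have h6 := h1 i
  have h7 : β i = 1 := by nlinarith
  rw [h4, h7, one_smul]

/-- The geometric representation is faithful. -/
lemma gr_injective {w : W} (h : gr cs w = 1) : w = 1 := by
  by_contra hw
  obtain ⟨i, hi⟩ := cs.exists_rightDescent_of_ne_one hw
  have h1 := (nonneg_iff cs w i).2 hi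
  rw [h] at h1
  have h2 := hgt_nonneg h1
  rw [map_neg] at h2
  have h3 : hgt ((1 : Module.End ℝ (B →₀ ℝ)) (ee i)) = 1 := hgt_ee i
  rw [h3] at h2
  linarith

lemma gr_inj {w w' : W} (h : gr cs w = gr cs w') : w = w' := by
  have h1 : gr cs (w * w'⁻¹) = 1 := by
    rw [map_mul, h, ← map_mul, mul_inv_cancel, map_one]
  exact mul_inv_eq_one.mp (gr_injective h1)

/-- The order of a product of two simple reflections. -/
lemma orderOf_simple_mul (i j : B) : orderOf (cs.simple i * cs.simple j) = M i j := by
  by_cases hij : i = j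
  · subst hij
    rw [cs.simple_mul_simple_self, M.diagonal, orderOf_one]
  · have hm1 := M.off_diagonal i j hij
    apply Nat.dvd_antisymm
    · exact orderOf_dvd_of_pow_eq_one (cs.simple_mul_simple_pow i j)
    · set n := orderOf (cs.simple i * cs.simple j)
      have h1 : (cs.simple i * cs.simple j) ^ n = 1 := pow_orderOf_eq_one _
      have h2 : (sig M i * sig M j) ^ n = 1 := by
        rw [← gr_simple cs, ← gr_simple cs, ← map_mul, ← map_pow, h1, map_one]
      have hc : kk M i j = -Real.cos (Real.pi / M i j) := rfl
      set c := Real.cos (Real.pi / M i j) with hcdef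
      have hc' : kk M j i = -c := by rw [kk_symm]; exact hc
      apply dvd_of_qq_eq_zero hm1
      by_contra hq
      have h3 := sig_mul_pow M i j n (ee j) hc
      rw [h2, gform_ee, gform_ee, kk_self, hc] at h3
      have h4 : (ee i : B →₀ ℝ) i = 1 := by simp [ee]
      have h5 : (ee j : B →₀ ℝ) j = 1 := by simp [ee]
      have h6 : (ee i : B →₀ ℝ) j = 0 := by simp [ee, hij]
      have h7 : (ee j : B →₀ ℝ) i = 0 := by simp [ee, Ne.symm hij]
      have h8 := congrArg (fun v : B →₀ ℝ => v i) h3
      have h9 := congrArg (fun v : B →₀ ℝ => v j) h3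
      simp only [Module.End.one_apply, Finsupp.sub_apply, Finsupp.smul_apply, smul_eq_mul, h4,
        h5, h6, h7] at h8 h9
      have h10 : qq c (n + 1) = c * qq c n := by
        have : 2 * qq c n * (1 * qq c (n + 1) + -c * qq c n) = 0 := by linarith
        rcases mul_eq_zero.mp this with h | h
        · exfalso
          apply hq
          linarith
        · linarith
      have h11 : qq c n = c * c * qq c n := by
        have : 2 * qq c n * (1 * qq c n + -c * (2 * c * qq c n - qq c (n + 1))) = 0 := by
          linarith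
        rcases mul_eq_zero.mp this with h | h
        · exfalso
          apply hq
          linarith
        · rw [h10] at h
          linarith
      have h12 : c ^ 2 = 1 := by
        have : qq c n * (c * c - 1) = 0 := by linarith
        rcases mul_eq_zero.mp this with h | h
        · exact absurd h hq
        · linarith
      rcases Nat.eq_zero_or_pos (M i j) with hm0 | hm0
      · have hc1 : c = 1 := by rw [hcdef, hm0]; simp
        rw [hc1] at h10
        rw [(qq_one_eq n).1, (qq_one_eq n).2] at h10
        linarith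
      · have h13 := sin_pi_div_pos (m := M i j) (by omega)
        have h14 := Real.sin_sq_add_cos_sq (Real.pi / M i j)
        rw [← hcdef, h12] at h14
        have h15 : 0 < Real.sin (Real.pi / M i j) ^ 2 := by positivity
        linarith

lemma simple_inj {i j : B} (h : cs.simple i = cs.simple j) : i = j := by
  by_contra hij
  have h1 := orderOf_simple_mul (cs := cs) i j
  rw [h, cs.simple_mul_simple_self, orderOf_one] at h1
  exact M.off_diagonal i j hij h1.symm

end Pool.Agent.Lib.MP_2f4918_al
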